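import Pool.Agent.H59.L.S8.Y506.RG.Gd

/-!
# Sets of measure one half for laws of linear images
-/

set_option autoImplicit false

namespace Pool.Agent.Y506.RG

open MeasureTheory Set Filter Topology
open scoped ENNReal InnerProductSpace
open Pool.Agent.W695.KH (Eu EU EV VV Sm Pot Uu)

variable {n : ℕ}

/-- the probability measure with density proportional to `w` -/
noncomputable def pm (w : Eu (Fin n) → ℝ) : Measure (Eu (Fin n)) :=
  (∫⁻ x, ENNReal.ofReal (w x))⁻¹ • volume.withDensity fun x => ENNReal.ofReal (w x)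

theorem lint_w {w : Eu (Fin n) → ℝ} (h : Adm w) :
    ∫⁻ x, ENNReal.ofReal (w x) = ENNReal.ofReal (∫ x, w x) :=
  (ofReal_integral_eq_lintegral_ofReal h.one (Eventually.of_forall h.nonneg)).symm

theorem pm_prob {w : Eu (Fin n) → ℝ} (h : Adm w) : IsProbabilityMeasure (pm w) := by
  have h0 : ∫⁻ x, ENNReal.ofReal (w x) ≠ 0 := by
    rw [lint_w h, Ne, ENNReal.ofReal_eq_zero, not_le]
    exact h.pos
  have h1 : ∫⁻ x, ENNReal.ofReal (w x) ≠ ⊤ := by
    rw [lint_w h]
    exact ENNReal.ofReal_ne_top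
  refine ⟨?_⟩
  unfold pm
  rw [Measure.smul_apply, withDensity_apply _ MeasurableSet.univ, Measure.restrict_univ, smul_eq_mul]
  exact ENNReal.inv_mul_cancel h0 h1

theorem pm_int {w : Eu (Fin n) → ℝ} (h : Adm w) (v : Eu (Fin n) → ℝ) :
    ∫ x, v x ∂(pm w) = EW w v := by
  unfold pm
  have hwm : Measurable fun x => ENNReal.ofReal (w x) := ENNReal.measurable_ofReal.comp h.meas
  rw [integral_smul_measure, integral_withDensity_eq_integral_toReal_smul hwm
    (Eventually.of_forall fun x => ENNReal.ofReal_lt_top), lint_w h, ENNReal.toReal_inv,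
    ENNReal.toReal_ofReal h.pos.le]
  unfold EW
  rw [smul_eq_mul, inv_mul_eq_div]
  congr 1
  refine integral_congr_ae (Eventually.of_forall fun x => ?_)
  simp only
  rw [ENNReal.toReal_ofReal (h.nonneg x), smul_eq_mul, mul_comm]

theorem pm_integrable {w : Eu (Fin n) → ℝ} (h : Adm w) (v : Eu (Fin n) → ℝ)
    (hv : Integrable fun x => v x * w x) : Integrable v (pm w) := by
  unfold pm
  have hwm : Measurable fun x => ENNReal.ofReal (w x) := ENNReal.measurable_ofReal.comp h.meas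
  refine Integrable.smul_measure ?_ ?_
  · rw [integrable_withDensity_iff_integrable_smul' hwm
      (Eventually.of_forall fun x => ENNReal.ofReal_lt_top)]
    refine hv.congr (Eventually.of_forall fun x => ?_)
    simp only
    rw [ENNReal.toReal_ofReal (h.nonneg x), smul_eq_mul, mul_comm]
  · rw [ENNReal.inv_ne_top, lint_w h, Ne, ENNReal.ofReal_eq_zero, not_le]
    exact h.pos

/-- **sets of measure one half** -/
theorem half_of_star (hMK : S_MINKM) {w : Eu (Fin n) → ℝ} (hA : Adm w) (c : ℝ) (hc : 0 < c)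
    (hst : Star c w) (k : ℕ) (T : Eu (Fin n) →ₗ[ℝ] Eu (Fin k)) (μ : Measure (Eu (Fin k)))
    (hμ : μ = Measure.map T (pm w)) : IsProbabilityMeasure μ ∧ ∀ s : ℝ, 0 < s →
    (∀ θ : Eu (Fin k), ‖θ‖ = 1 → ProbabilityTheory.variance (fun x => ⟪x, θ⟫_ℝ) μ ≤ s) →
    ∀ S : Set (Eu (Fin k)), μ S = 1 / 2 → ENNReal.ofReal (1 / (4 * c) / Real.sqrt s) ≤
      liminf (fun ε : ℝ => (μ (Metric.thickening ε S) - μ S) / ENNReal.ofReal ε) (𝓝[>] 0) := by
  have hpr := pm_prob hA
  have hTc : Continuous T := T.continuous_of_finiteDimensional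
  have hTm : Measurable T := hTc.measurable
  have hprob : IsProbabilityMeasure μ := by
    rw [hμ]
    exact Measure.isProbabilityMeasure_map hTm.aemeasurable
  have hint : ∀ g : Eu (Fin k) → ℝ, Measurable g → ∫ y, g y ∂μ = EW w fun x => g (T x) := by
    intro g hg
    rw [hμ, integral_map hTm.aemeasurable hg.aestronglyMeasurable, pm_int hA]
  refine ⟨hprob, fun s hs hvar S hS => ?_⟩
  obtain ⟨T2, hT2⟩ : ∃ T2 : Eu (Fin n) →L[ℝ] Eu (Fin k), ∀ x, T2 x = T x :=
    ⟨LinearMap.toContinuousLinearMap T, fun x => rfl⟩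
  have hvar' : ∀ θ : Eu (Fin k), ‖θ‖ = 1 → VW w (fun x => ⟪T x, θ⟫_ℝ) ≤ s := by
    intro θ hθ
    have h1 := hvar θ hθ
    have hm1 : Measurable fun y : Eu (Fin k) => ⟪y, θ⟫_ℝ := by fun_prop
    obtain ⟨i1, i2⟩ := lin_int hA (fun z => ⟪T z, θ⟫_ℝ) (by
      have : Continuous fun z => ⟪T z, θ⟫_ℝ := hTc.inner continuous_const
      exact this.measurable) (‖T2‖) (fun z => by
        refine (abs_real_inner_le_norm _ _).trans ?_
        rw [hθ, mul_one, ← hT2]
        refine (T2.le_opNorm z).trans ?_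
        nlinarith [norm_nonneg T2, norm_nonneg z])
    have hL2 : MemLp (fun y : Eu (Fin k) => ⟪y, θ⟫_ℝ) 2 μ := by
      rw [memLp_two_iff_integrable_sq hm1.aestronglyMeasurable, hμ,
        integrable_map_measure (hm1.pow_const 2).aestronglyMeasurable hTm.aemeasurable]
      exact pm_integrable hA _ i2
    rw [ProbabilityTheory.variance_eq_sub hL2] at h1
    have e1 : ∫ y, ((fun y : Eu (Fin k) => ⟪y, θ⟫_ℝ) ^ 2) y ∂μ = EW w fun x => ⟪T x, θ⟫_ℝ ^ 2 :=
      hint (fun y => ⟪y, θ⟫_ℝ ^ 2) (hm1.pow_const 2)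
    have e2 : ∫ y, ⟪y, θ⟫_ℝ ∂μ = EW w fun x => ⟪T x, θ⟫_ℝ := hint _ hm1
    rw [e1, e2] at h1
    exact h1
  have hB : 0 < c * Real.sqrt s := mul_pos hc (Real.sqrt_pos.2 hs)
  have key := hMK (Fin k) μ (c * Real.sqrt s) hB (fun f L M hf hfb hf5 => by
    have hfm : Measurable f := hf.diff.continuous.measurable
    have e1 : ∫ x, f x ^ 2 ∂μ = EW w fun x => f (T x) ^ 2 := hint _ (hfm.pow_const 2)
    have e2 : ∫ x, f x ∂μ = EW w fun x => f (T x) := hint _ hfm
    have e3 : ∫ x, ‖fderiv ℝ f x‖ ∂μ = EW w fun x => ‖fderiv ℝ f (T x)‖ :=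
      hint (fun x => ‖fderiv ℝ f x‖) (hf.diff.continuous_fderiv one_ne_zero).norm.measurable
    rw [e1, e2] at hf5 ⊢
    rw [e3]
    exact hst k T s hs hvar' f L M hf hfb hf5) S hS
  obtain ⟨I, hI⟩ : ∃ I : ℝ≥0∞, I = liminf (fun ε : ℝ => (μ (Metric.thickening ε S) - μ S) /
    ENNReal.ofReal ε) (𝓝[>] 0) := ⟨_, rfl⟩
  rw [← hI] at key ⊢
  rw [hS] at key
  have h1 : (1 / 2 : ℝ≥0∞) * (1 - 1 / 2) = ENNReal.ofReal (1 / 4) := by
    have h2 : (1 / 2 : ℝ≥0∞) = ENNReal.ofReal (1 / 2) := by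
      rw [ENNReal.ofReal_div_of_pos (by norm_num)]
      norm_num
    rw [h2, ← ENNReal.ofReal_one, ← ENNReal.ofReal_sub _ (by norm_num),
      ← ENNReal.ofReal_mul (by norm_num)]
    norm_num
  rw [h1] at key
  have hs0 : 0 < Real.sqrt s := Real.sqrt_pos.2 hs
  have h3 : ENNReal.ofReal (1 / (4 * c) / Real.sqrt s) = ENNReal.ofReal ((c * Real.sqrt s)⁻¹) *
      ENNReal.ofReal (1 / 4) := by
    rw [← ENNReal.ofReal_mul (by positivity)]
    congr 1
    field_simp
  rw [h3]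
  calc ENNReal.ofReal ((c * Real.sqrt s)⁻¹) * ENNReal.ofReal (1 / 4) ≤
        ENNReal.ofReal ((c * Real.sqrt s)⁻¹) * (ENNReal.ofReal (c * Real.sqrt s) * I) :=
        mul_le_mul_right key _
    _ = I := by
        rw [← mul_assoc, ← ENNReal.ofReal_mul (by positivity), inv_mul_cancel₀ hB.ne',
          ENNReal.ofReal_one, one_mul]

end Pool.Agent.Y506.RG
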