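import Pool.Agent.H59.L.S8.Y506.RG.Fin

/-!
# The inequality for linear images
-/

set_option autoImplicit false

namespace Pool.Agent.Y506.RG

open MeasureTheory Set Filter Topology
open scoped ENNReal InnerProductSpace
open Pool.Agent.W695.KH (Eu EU EV VV Sm Pot Uu)
open Pool.Agent.Y506.FF (Pair mat pw prj exists_coord coord_cont sum_pw pw_nonneg adj adj_apply
  adj_norm adj_le push lip_of)

variable {n : ℕ}

theorem VW_const_mul (w v : Eu (Fin n) → ℝ) (c : ℝ) : VW w (fun x => c * v x) = c ^ 2 * VW w v := by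
  unfold VW
  have h1 : (fun x => (c * v x) ^ 2) = fun x => c ^ 2 * v x ^ 2 := by
    funext x
    ring
  rw [h1, EW_const_mul, EW_const_mul]
  ring

/-- bound of the norm of a linear map by the variances of its image -/
theorem norm_T {k : ℕ} (w : Eu (Fin n) → ℝ) (c0 : ℝ) (hc0 : 0 < c0)
    (hlow : ∀ θ : Eu (Fin n), ‖θ‖ = 1 → c0 ≤ VW w fun x => ⟪θ, x⟫_ℝ)
    (T : Eu (Fin n) →ₗ[ℝ] Eu (Fin k)) (s : ℝ) (hs : 0 < s)
    (hvar : ∀ θ : Eu (Fin k), ‖θ‖ = 1 → VW w (fun x => ⟪T x, θ⟫_ℝ) ≤ s) (x : Eu (Fin n)) :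
    ‖T x‖ ≤ Real.sqrt (s / c0) * ‖x‖ := by
  have h1 : ∀ θ : Eu (Fin k), ‖θ‖ = 1 → ‖LinearMap.adjoint T θ‖ ≤ Real.sqrt (s / c0) := by
    intro θ hθ
    obtain ⟨a, ha⟩ : ∃ a : Eu (Fin n), a = LinearMap.adjoint T θ := ⟨_, rfl⟩
    rw [← ha]
    refine Real.le_sqrt_of_sq_le ?_
    rw [le_div_iff₀ hc0]
    by_cases h0 : a = 0
    · rw [h0, norm_zero]
      simpa using hs.le
    have hn : 0 < ‖a‖ := norm_pos_iff.2 h0
    have h2 := hlow (‖a‖⁻¹ • a) (by
      rw [norm_smul, norm_inv, norm_norm, inv_mul_cancel₀ hn.ne'])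
    have h3 := hvar θ hθ
    have e1 : (fun x => ⟪T x, θ⟫_ℝ) = fun x => ‖a‖ * ⟪‖a‖⁻¹ • a, x⟫_ℝ := by
      funext x
      rw [real_inner_smul_left, ← mul_assoc, mul_inv_cancel₀ hn.ne', one_mul, ha,
        LinearMap.adjoint_inner_left, real_inner_comm]
    rw [e1, VW_const_mul] at h3
    calc ‖a‖ ^ 2 * c0 ≤ ‖a‖ ^ 2 * VW w (fun x => ⟪‖a‖⁻¹ • a, x⟫_ℝ) :=
          mul_le_mul_of_nonneg_left h2 (sq_nonneg _)
      _ ≤ s := h3
  by_cases h0 : T x = 0
  · rw [h0, norm_zero]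
    positivity
  have hn : 0 < ‖T x‖ := norm_pos_iff.2 h0
  have h2 := h1 (‖T x‖⁻¹ • T x) (by
      rw [norm_smul, norm_inv, norm_norm, inv_mul_cancel₀ hn.ne'])
  have h3 : ‖T x‖ = ⟪LinearMap.adjoint T (‖T x‖⁻¹ • T x), x⟫_ℝ := by
    rw [LinearMap.adjoint_inner_left, real_inner_smul_left, real_inner_self_eq_norm_sq, sq,
      ← mul_assoc, inv_mul_cancel₀ hn.ne', one_mul]
  calc ‖T x‖ = ⟪LinearMap.adjoint T (‖T x‖⁻¹ • T x), x⟫_ℝ := h3
    _ ≤ ‖LinearMap.adjoint T (‖T x‖⁻¹ • T x)‖ * ‖x‖ := real_inner_le_norm _ _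
    _ ≤ _ := mul_le_mul_of_nonneg_right h2 (norm_nonneg _)

theorem star_of {w : Eu (Fin n) → ℝ} (hA : Adm w) (c0 K : ℝ) (hc0 : 0 < c0) (hK : 0 < K)
    (hlow : ∀ θ : Eu (Fin n), ‖θ‖ = 1 → c0 ≤ VW w fun x => ⟪θ, x⟫_ℝ)
    (hmil : ∀ (g : Eu (Fin n) → ℝ) (L' M' : ℝ), Sm g L' M' → (∀ x, |g x| ≤ 1 / 2) →
      1 / 5 < VW w g → VW w g ≤ K * EW w fun x => ‖fderiv ℝ g x‖) :
    Star (K / Real.sqrt c0) w := by
  intro k T s hs hvar f L M hf hb h5
  obtain ⟨R, hR⟩ : ∃ R : ℝ, R = Real.sqrt (s / c0) := ⟨_, rfl⟩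
  have hR0 : 0 ≤ R := by rw [hR]; exact Real.sqrt_nonneg _
  have hT := norm_T w c0 hc0 hlow T s hs hvar
  rw [← hR] at hT
  obtain ⟨T', hT'⟩ : ∃ T' : Eu (Fin n) →L[ℝ] Eu (Fin k), ∀ x, T' x = T x :=
    ⟨LinearMap.toContinuousLinearMap T, fun x => rfl⟩
  have hTn : ‖T'‖ ≤ R := ContinuousLinearMap.opNorm_le_bound _ hR0 fun x => by
    rw [hT']
    exact hT x
  have hfd : ∀ x, HasFDerivAt (fun x => f (T x)) ((fderiv ℝ f (T x)).comp T') x := by
    intro x
    have h1 : HasFDerivAt (fun x => T x) T' x := by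
      have : (fun x => T x) = fun x => T' x := funext fun x => (hT' x).symm
      rw [this]
      exact T'.hasFDerivAt
    have h3 : HasFDerivAt f (fderiv ℝ f (T x)) (T x) :=
      (hf.diff.differentiable one_ne_zero _).hasFDerivAt
    exact HasFDerivAt.comp x h3 h1
  have hfe : ∀ x, fderiv ℝ (fun x => f (T x)) x = (fderiv ℝ f (T x)).comp T' :=
    fun x => (hfd x).fderiv
  have hL0 : 0 ≤ L := (norm_nonneg _).trans (hf.grad 0)
  have hTc : ContDiff ℝ 1 fun x => T x := by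
    have : (fun x => T x) = fun x => T' x := funext fun x => (hT' x).symm
    rw [this]
    exact T'.contDiff
  have hg : Sm (fun x => f (T x)) (L * R) (|M| * R * R) := by
    refine ⟨fun x => hf.bdd _, hf.diff.comp hTc, fun x => ?_, fun x y => ?_⟩
    · rw [hfe]
      calc ‖(fderiv ℝ f (T x)).comp T'‖
          ≤ ‖fderiv ℝ f (T x)‖ * ‖T'‖ := ContinuousLinearMap.opNorm_comp_le _ _
        _ ≤ L * R := mul_le_mul (hf.grad _) hTn (norm_nonneg _) hL0
    · rw [hfe, hfe, ← ContinuousLinearMap.sub_comp]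
      calc ‖(fderiv ℝ f (T x) - fderiv ℝ f (T y)).comp T'‖
          ≤ ‖fderiv ℝ f (T x) - fderiv ℝ f (T y)‖ * ‖T'‖ :=
            ContinuousLinearMap.opNorm_comp_le _ _
        _ ≤ (|M| * (R * ‖x - y‖)) * R := by
            refine mul_le_mul ?_ hTn (norm_nonneg _) (by positivity)
            refine (hf.lip _ _).trans ?_
            calc M * ‖T x - T y‖ ≤ |M| * ‖T x - T y‖ :=
                  mul_le_mul_of_nonneg_right (le_abs_self M) (norm_nonneg _)
              _ ≤ |M| * (R * ‖x - y‖) := by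
                  refine mul_le_mul_of_nonneg_left ?_ (abs_nonneg M)
                  rw [← map_sub]
                  exact hT _
        _ = |M| * R * R * ‖x - y‖ := by ring
  have key := hmil (fun x => f (T x)) _ _ hg (fun x => hb _) h5
  refine key.trans ?_
  have hfc : Continuous fun x => fderiv ℝ f (T x) :=
    (hf.diff.continuous_fderiv one_ne_zero).comp hTc.continuous
  have i1 : Integrable fun x => ‖fderiv ℝ (fun x => f (T x)) x‖ * w x := by
    refine hA.bdd _ ?_ (L * R) fun x => ?_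
    · have := hg.diff.continuous_fderiv one_ne_zero
      exact this.norm.measurable
    · rw [abs_norm]
      exact hg.grad x
  have i2 : Integrable fun x => (R * ‖fderiv ℝ f (T x)‖) * w x := by
    refine hA.bdd _ (measurable_const.mul hfc.norm.measurable) (R * L) fun x => ?_
    rw [abs_of_nonneg (mul_nonneg hR0 (norm_nonneg _))]
    exact mul_le_mul_of_nonneg_left (hf.grad _) hR0
  have h6 := EW_mono hA (fun x => ‖fderiv ℝ (fun x => f (T x)) x‖)
    (fun x => R * ‖fderiv ℝ f (T x)‖) i1 i2 (fun x => by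
      rw [hfe]
      calc ‖(fderiv ℝ f (T x)).comp T'‖
          ≤ ‖fderiv ℝ f (T x)‖ * ‖T'‖ := ContinuousLinearMap.opNorm_comp_le _ _
        _ ≤ ‖fderiv ℝ f (T x)‖ * R := mul_le_mul_of_nonneg_left hTn (norm_nonneg _)
        _ = _ := mul_comm _ _)
  rw [EW_const_mul] at h6
  calc K * EW w (fun x => ‖fderiv ℝ (fun x => f (T x)) x‖)
      ≤ K * (R * EW w fun x => ‖fderiv ℝ f (T x)‖) := mul_le_mul_of_nonneg_left h6 hK.le
    _ = _ := by
        rw [hR, Real.sqrt_div hs.le]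
        ring

theorem Star.mono {c c' : ℝ} {w : Eu (Fin n) → ℝ} (hcc : c ≤ c')
    (hw : ∀ x, 0 ≤ w x) (h : Star c w) : Star c' w := by
  intro k T s hs hvar f L M hf hb h5
  refine (h k T s hs hvar f L M hf hb h5).trans ?_
  refine mul_le_mul_of_nonneg_right (mul_le_mul_of_nonneg_right hcc (Real.sqrt_nonneg s)) ?_
  exact div_nonneg (integral_nonneg fun x => mul_nonneg (norm_nonneg _) (hw x))
    (integral_nonneg hw)

theorem int_lin (A : Eu (Fin n) ≃L[ℝ] Eu (Fin n)) : ∃ κ : ℝ, 0 < κ ∧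
    ∀ F : Eu (Fin n) → ℝ, ∫ y, F (A y) = κ * ∫ z, F z := by
  obtain ⟨D, hD⟩ : ∃ D : ℝ, D = LinearMap.det (A.toLinearEquiv.toLinearMap : Eu (Fin n) →ₗ[ℝ]
    Eu (Fin n)) := ⟨_, rfl⟩
  have hD0 : D ≠ 0 := by
    rw [hD]
    exact (LinearEquiv.isUnit_det' A.toLinearEquiv).ne_zero
  have h1 : Measure.map A (volume : Measure (Eu (Fin n))) = ENNReal.ofReal |D⁻¹| • volume := by
    rw [hD]
    exact Measure.map_linearMap_addHaar_eq_smul_addHaar volume (by rw [← hD]; exact hD0)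
  refine ⟨|D⁻¹|, abs_pos.2 (inv_ne_zero hD0), fun F => ?_⟩
  have h2 := A.toHomeomorph.measurableEmbedding.integral_map (μ := volume) F
  have h3 : Measure.map (A.toHomeomorph) (volume : Measure (Eu (Fin n))) = Measure.map A volume :=
    rfl
  rw [h3, h1, integral_smul_measure, ENNReal.toReal_ofReal (abs_nonneg _)] at h2
  exact h2.symm

theorem EW_aff (A : Eu (Fin n) ≃L[ℝ] Eu (Fin n)) (x0 : Eu (Fin n)) (Z : ℝ) (hZ : 0 < Z)
    (w w1 : Eu (Fin n) → ℝ) (hw : ∀ x, w x = Z * w1 (A (x - x0))) (v : Eu (Fin n) → ℝ) :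
    EW w v = EW w1 fun z => v (A.symm z + x0) := by
  obtain ⟨κ, hκ, H⟩ := int_lin A
  have h1 : ∀ u : Eu (Fin n) → ℝ, ∫ x, u x * w x = Z * κ * ∫ z, u (A.symm z + x0) * w1 z := by
    intro u
    have h2 : ∫ x, u x * w x = ∫ y, u (y + x0) * w (y + x0) :=
      (integral_add_right_eq_self (fun x => u x * w x) x0).symm
    have h3 := H fun z => u (A.symm z + x0) * w1 z
    rw [h2, mul_assoc, ← h3, ← integral_const_mul]
    refine integral_congr_ae (Eventually.of_forall fun y => ?_)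
    simp only
    rw [hw, add_sub_cancel_right, ContinuousLinearEquiv.symm_apply_apply]
    ring
  have h4 := h1 fun _ => 1
  simp only [one_mul] at h4
  unfold EW
  rw [h1, h4, mul_div_mul_left _ _ (mul_pos hZ hκ).ne']

theorem star_aff {c : ℝ} (A : Eu (Fin n) ≃L[ℝ] Eu (Fin n)) (x0 : Eu (Fin n)) (Z : ℝ) (hZ : 0 < Z)
    (w w1 : Eu (Fin n) → ℝ) (hw : ∀ x, w x = Z * w1 (A (x - x0))) (h1 : Adm w1)
    (h : Star c w1) : Star c w := by
  intro k T s hs hvar f L M hf hb h5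
  have hVW : ∀ v : Eu (Fin n) → ℝ, VW w v = VW w1 fun z => v (A.symm z + x0) := by
    intro v
    unfold VW
    rw [EW_aff A x0 Z hZ w w1 hw, EW_aff A x0 Z hZ w w1 hw]
  obtain ⟨T', hT'⟩ : ∃ T' : Eu (Fin n) →ₗ[ℝ] Eu (Fin k), ∀ z, T' z = T (A.symm z) :=
    ⟨T.comp A.symm.toLinearEquiv.toLinearMap, fun z => rfl⟩
  have hTz : ∀ z, T (A.symm z + x0) = T' z + T x0 := by
    intro z
    rw [map_add, hT']
  have hTc : Continuous T' := T'.continuous_of_finiteDimensional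
  have hvar' : ∀ θ : Eu (Fin k), ‖θ‖ = 1 → VW w1 (fun z => ⟪T' z, θ⟫_ℝ) ≤ s := by
    intro θ hθ
    have h2 := hvar θ hθ
    rw [hVW] at h2
    have e1 : (fun z => ⟪T (A.symm z + x0), θ⟫_ℝ) = fun z => ⟪T' z, θ⟫_ℝ + ⟪T x0, θ⟫_ℝ := by
      funext z
      rw [hTz, inner_add_left]
    obtain ⟨T2, hT2⟩ : ∃ T2 : Eu (Fin n) →L[ℝ] Eu (Fin k), ∀ x, T2 x = T' x :=
      ⟨LinearMap.toContinuousLinearMap T', fun x => rfl⟩
    obtain ⟨i1, i2⟩ := lin_int h1 (fun z => ⟪T' z, θ⟫_ℝ) (by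
      have : Continuous fun z => ⟪T' z, θ⟫_ℝ := hTc.inner continuous_const
      exact this.measurable) (‖T2‖) (fun z => by
        refine (abs_real_inner_le_norm _ _).trans ?_
        rw [hθ, mul_one, ← hT2]
        refine (T2.le_opNorm z).trans ?_
        nlinarith [norm_nonneg T2, norm_nonneg z])
    rw [e1, VW_add_const h1 _ i1 i2] at h2
    exact h2
  have hfd : ∀ y, fderiv ℝ (fun y => f (y + T x0)) y = fderiv ℝ f (y + T x0) := fun y =>
    fderiv_comp_add_right (T x0)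
  have hf' : Sm (fun y => f (y + T x0)) L M := by
    refine ⟨fun x => hf.bdd _, hf.diff.comp (contDiff_id.add contDiff_const), fun x => ?_,
      fun x y => ?_⟩
    · rw [hfd]; exact hf.grad _
    · rw [hfd, hfd]
      have := hf.lip (x + T x0) (y + T x0)
      rwa [add_sub_add_right_eq_sub] at this
  rw [hVW] at h5 ⊢
  rw [EW_aff A x0 Z hZ w w1 hw]
  simp only [hTz] at h5 ⊢
  have key := h k T' s hs hvar' (fun y => f (y + T x0)) L M hf' (fun x => hb _) h5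
  simp only [hfd] at key
  exact key

end Pool.Agent.Y506.RG
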