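import Pool.Agent.H59.L.S8.Y506.RG.Fnl
import Pool.Agent.H59.L.S8.Y849.RG.One
import Pool.Agent.H59.L.S8.Y901.RG.T1
import Pool.Agent.H59.L.S8.Y401.RG.T2
import Pool.Agent.H59.L.S8.Y252.RG.Logr
import Pool.Agent.H59.L.S8.Y950.RG.Expd
import Pool.Agent.H59.L.S8.Z864.RG.LDK
import Pool.Agent.H59.L.S8.Y429.RG.SPL2
import Pool.Agent.H59.L.S8.Y210.RG.Mom
import Pool.Agent.H59.L.S8.Y445.RG.Varr
import Pool.Agent.H59.L.S8.Y809.RG.Jac
import Pool.Agent.H59.L.S8.Y487.RG.Thr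
import Pool.Agent.H59.L.S8.Y287.RG.Potr
import Pool.Agent.H59.L.S8.Y429.RG.MINKM
import Pool.Agent.H59.L.S8.Y510.RG.Limw
import Pool.Agent.H59.L.S8.Y333.RG.Reg
import Pool.Agent.H59.L.S8.Y497.RG.Tilt
import Pool.Agent.H59.L.S8.Y592.RG.Norm
import Pool.Agent.H59.L.S8.Y65.RG.Apx

/-!
# Products of few ridge functions: sets of measure one half
-/

set_option autoImplicit false

namespace Pool.Agent.Y506.RG

open MeasureTheory Set Filter Topology
open scoped ENNReal InnerProductSpace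
open Pool.Agent.W695.KH (Eu EU EV VV Sm Pot Uu)

/-- the functional inequality for products of few ridge functions -/
theorem star_all (q : ℕ) : ∃ c : ℝ, 0 < c ∧
      ∀ (n N : ℕ), 1 ≤ n → N ≤ n + q → ∀ (ell : Eu (Fin n) →ₗ[ℝ] Eu (Fin N)),
      (∀ x, ell x = 0 → x = 0) → ∀ h : Fin N → ℝ → ℝ, (∀ i, LC1 (h i)) →
      Integrable (fun x => (1 + ‖x‖ ^ 2) * ∏ i, h i (ell x i)) →
      0 < ∫ x, ∏ i, h i (ell x i) → Star c fun x => ∏ i, h i (ell x i) :=
  star_lc Pool.Agent.Y210.RG.momr Pool.Agent.Z864.RG.ldk Pool.Agent.Y429.RG.spl2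
    Pool.Agent.Y950.RG.expd Pool.Agent.Y950.RG.psi Pool.Agent.Y252.RG.logr
    Pool.Agent.Y445.RG.varr (Pool.Agent.Y487.RG.thr Pool.Agent.Y809.RG.jacr)
    Pool.Agent.Y901.RG.t1 Pool.Agent.Y401.RG.t2 Pool.Agent.Y849.RG.one1
    Pool.Agent.Y287.RG.potr Pool.Agent.Y497.RG.tilt Pool.Agent.Y592.RG.norm1
    (Pool.Agent.Y65.RG.apx Pool.Agent.Y510.RG.limw Pool.Agent.Y333.RG.reg) q

/-- sets of measure one half -/
theorem half_all (q : ℕ) : ∃ c : ℝ, 0 < c ∧
    ∀ (n N : ℕ), 1 ≤ n → N ≤ n + q → ∀ (v : Fin N → Eu (Fin n)),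
    (∀ x, (∀ i, ⟪v i, x⟫_ℝ = 0) → x = 0) → ∀ h : Fin N → ℝ → ℝ, (∀ i, LC1 (h i)) →
    Integrable (fun x : Eu (Fin n) => (1 + ‖x‖ ^ 2) * ∏ i, h i ⟪v i, x⟫_ℝ) →
    0 < ∫ x : Eu (Fin n), ∏ i, h i ⟪v i, x⟫_ℝ → Adm (fun x => ∏ i, h i ⟪v i, x⟫_ℝ) ∧
    ∀ (k : ℕ) (T : Eu (Fin n) →ₗ[ℝ] Eu (Fin k)) (μ : Measure (Eu (Fin k))),
    μ = Measure.map T (pm fun x => ∏ i, h i ⟪v i, x⟫_ℝ) → IsProbabilityMeasure μ ∧
    ∀ s : ℝ, 0 < s →
    (∀ θ : Eu (Fin k), ‖θ‖ = 1 → ProbabilityTheory.variance (fun x => ⟪x, θ⟫_ℝ) μ ≤ s) →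
    ∀ S : Set (Eu (Fin k)), μ S = 1 / 2 → ENNReal.ofReal (c / Real.sqrt s) ≤
      liminf (fun ε : ℝ => (μ (Metric.thickening ε S) - μ S) / ENNReal.ofReal ε) (𝓝[>] 0) := by
  obtain ⟨c, hc, H⟩ := star_all q
  refine ⟨1 / (4 * c), by positivity, ?_⟩
  intro n N hn hN v hv h hh hint hpos
  let ell : Eu (Fin n) →ₗ[ℝ] Eu (Fin N) :=
    { toFun := fun x => WithLp.toLp 2 fun i => ⟪v i, x⟫_ℝ
      map_add' := fun x y => by ext; simp [inner_add_right]
      map_smul' := fun c x => by ext; simp [real_inner_smul_right] }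
  have hell : ∀ x i, ell x i = ⟪v i, x⟫_ℝ := fun x i => rfl
  have hker : ∀ x, ell x = 0 → x = 0 := by
    intro x hx
    refine hv x fun i => ?_
    rw [← hell, hx]
    rfl
  have hA : Adm (fun x : Eu (Fin n) => ∏ i, h i ⟪v i, x⟫_ℝ) := by
    refine ⟨fun x => Finset.prod_nonneg fun i _ => (hh i).nonneg _, hint, hpos, ?_⟩
    refine Finset.measurable_prod _ fun i _ => ?_
    have : Measurable fun x : Eu (Fin n) => ⟪v i, x⟫_ℝ := by fun_prop
    exact (hh i).meas.comp this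
  have hst : Star c fun x : Eu (Fin n) => ∏ i, h i ⟪v i, x⟫_ℝ :=
    H n N hn hN ell hker h hh hint hpos
  refine ⟨hA, fun k T μ hμ => ?_⟩
  exact half_of_star Pool.Agent.Y429.RG.minkm hA c hc hst k T μ hμ

/-- intersection of slabs -/
def slb {n N : ℕ} (v : Fin N → Eu (Fin n)) (I : Fin N → Set ℝ) : Set (Eu (Fin n)) :=
  {x | ∀ i, ⟪v i, x⟫_ℝ ∈ I i}

theorem slb_closed {n N : ℕ} (v : Fin N → Eu (Fin n)) (I : Fin N → Set ℝ)
    (hI : ∀ i, IsClosed (I i)) : IsClosed (slb v I) := by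
  have h1 : slb v I = ⋂ i, (fun x : Eu (Fin n) => ⟪v i, x⟫_ℝ) ⁻¹' (I i) := by
    ext x
    simp [slb]
  rw [h1]
  refine isClosed_iInter fun i => (hI i).preimage ?_
  fun_prop

theorem slb_convex {n N : ℕ} (v : Fin N → Eu (Fin n)) (I : Fin N → Set ℝ)
    (hI : ∀ i, (I i).OrdConnected) : Convex ℝ (slb v I) := by
  intro x hx y hy a b ha hb hab i
  have h1 : ⟪v i, a • x + b • y⟫_ℝ = a • ⟪v i, x⟫_ℝ + b • ⟪v i, y⟫_ℝ := by
    rw [inner_add_right, real_inner_smul_right, real_inner_smul_right, smul_eq_mul, smul_eq_mul]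
  rw [h1]
  exact (hI i).convex (hx i) (hy i) ha hb hab

theorem ind_lc {I : Set ℝ} (hc : MeasurableSet I) (hI : I.OrdConnected) :
    LC1 (I.indicator fun _ => (1 : ℝ)) := by
  refine ⟨fun s => indicator_nonneg (fun _ _ => zero_le_one) s, measurable_const.indicator hc,
    fun x y t h0 h1 => ?_⟩
  by_cases hx : x ∈ I
  · by_cases hy : y ∈ I
    · have h2 : (1 - t) * x + t * y ∈ I := by
        have := hI.convex hx hy (by linarith : 0 ≤ 1 - t) h0.le (by ring)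
        simpa [smul_eq_mul] using this
      rw [indicator_of_mem hx, indicator_of_mem hy, indicator_of_mem h2, Real.one_rpow,
        Real.one_rpow, mul_one]
    · rw [indicator_of_notMem hy, Real.zero_rpow h0.ne', mul_zero]
      exact indicator_nonneg (fun _ _ => zero_le_one) _
  · rw [indicator_of_notMem hx, Real.zero_rpow (by linarith : (1 - t) ≠ 0), zero_mul]
    exact indicator_nonneg (fun _ _ => zero_le_one) _

/-- sets of measure one half in intersections of few slabs, and their linear images -/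
theorem slab_half (q : ℕ) : ∃ c : ℝ, 0 < c ∧
    ∀ (n N : ℕ), 1 ≤ n → N ≤ n + q → ∀ (v : Fin N → Eu (Fin n)) (I : Fin N → Set ℝ),
    (∀ i, IsClosed (I i)) → (∀ i, (I i).OrdConnected) → Bornology.IsBounded (slb v I) →
    (interior (slb v I)).Nonempty →
    ∀ (k : ℕ) (T : Eu (Fin n) →ₗ[ℝ] Eu (Fin k)) (μ : Measure (Eu (Fin k))),
    μ = Measure.map T ((volume (slb v I))⁻¹ • volume.restrict (slb v I)) →
    ∀ s : ℝ, 0 < s →
    (∀ θ : Eu (Fin k), ‖θ‖ = 1 → ProbabilityTheory.variance (fun x => ⟪x, θ⟫_ℝ) μ ≤ s) →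
    ∀ S : Set (Eu (Fin k)), μ S = 1 / 2 → ENNReal.ofReal (c / Real.sqrt s) ≤
      liminf (fun ε : ℝ => (μ (Metric.thickening ε S) - μ S) / ENNReal.ofReal ε) (𝓝[>] 0) := by
  obtain ⟨c, hc, H⟩ := half_all q
  refine ⟨c, hc, ?_⟩
  intro n N hn hN v I hI1 hI2 hbd hint k T μ hμ
  have hcl := slb_closed v I hI1
  have hcp : IsCompact (slb v I) := Metric.isCompact_of_isClosed_isBounded hcl hbd
  have hvol : 0 < volume (slb v I) :=
    lt_of_lt_of_le (isOpen_interior.measure_pos volume hint) (measure_mono interior_subset)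
  have hfin : volume (slb v I) ≠ ⊤ := hcp.measure_lt_top.ne
  have hw : ∀ x, ∏ i, (I i).indicator (fun _ => (1 : ℝ)) ⟪v i, x⟫_ℝ =
      (slb v I).indicator (fun _ => (1 : ℝ)) x := by
    intro x
    by_cases hx : x ∈ slb v I
    · rw [indicator_of_mem hx]
      refine Finset.prod_eq_one fun i _ => ?_
      rw [indicator_of_mem (hx i)]
    · rw [indicator_of_notMem hx]
      unfold slb at hx
      rw [mem_ofPred_eq, not_forall] at hx
      obtain ⟨i, hi⟩ := hx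
      refine Finset.prod_eq_zero (Finset.mem_univ i) ?_
      rw [indicator_of_notMem hi]
  have hker : ∀ x : Eu (Fin n), (∀ i, ⟪v i, x⟫_ℝ = 0) → x = 0 := by
    intro x hx1
    by_contra hne
    obtain ⟨R, hR⟩ := hbd.exists_norm_le
    have hxn : 0 < ‖x‖ := norm_pos_iff.2 hne
    obtain ⟨x0, hx0'⟩ := hint
    have hx0 : x0 ∈ slb v I := interior_subset hx0'
    have h1 := hR (x0 + ((R + ‖x0‖ + 1) / ‖x‖) • x) (by
      intro i
      rw [inner_add_right, real_inner_smul_right, hx1, mul_zero, add_zero]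
      exact hx0 i)
    have hR0 : 0 ≤ R := (norm_nonneg _).trans (hR x0 hx0)
    have h2 : ‖((R + ‖x0‖ + 1) / ‖x‖) • x‖ = R + ‖x0‖ + 1 := by
      rw [norm_smul, Real.norm_eq_abs, abs_of_nonneg (by positivity), div_mul_cancel₀ _ hxn.ne']
    have h3 : ‖((R + ‖x0‖ + 1) / ‖x‖) • x‖ ≤ ‖x0 + ((R + ‖x0‖ + 1) / ‖x‖) • x‖ + ‖x0‖ := by
      have := norm_sub_le (x0 + ((R + ‖x0‖ + 1) / ‖x‖) • x) x0
      rwa [add_sub_cancel_left] at this
    linarith
  have hint1 : Integrable fun x : Eu (Fin n) =>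
      (1 + ‖x‖ ^ 2) * (slb v I).indicator (fun _ => (1 : ℝ)) x := by
    have h1 : (fun x : Eu (Fin n) => (1 + ‖x‖ ^ 2) * (slb v I).indicator (fun _ => (1 : ℝ)) x) =
        (slb v I).indicator fun x => 1 + ‖x‖ ^ 2 := by
      funext x
      by_cases hx : x ∈ slb v I
      · rw [indicator_of_mem hx, indicator_of_mem hx, mul_one]
      · rw [indicator_of_notMem hx, indicator_of_notMem hx, mul_zero]
    rw [h1, integrable_indicator_iff hcl.measurableSet]
    have : Continuous fun x : Eu (Fin n) => 1 + ‖x‖ ^ 2 := by fun_prop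
    exact this.continuousOn.integrableOn_compact hcp
  have hpos : 0 < ∫ x, (slb v I).indicator (fun _ => (1 : ℝ)) x := by
    rw [integral_indicator hcl.measurableSet]
    simp only [integral_const, smul_eq_mul, mul_one, Measure.real, Measure.restrict_apply_univ]
    exact ENNReal.toReal_pos hvol.ne' hfin
  obtain ⟨-, H2⟩ := H n N hn hN v hker (fun i => (I i).indicator fun _ => (1 : ℝ))
    (fun i => ind_lc (hI1 i).measurableSet (hI2 i)) (by simpa only [hw] using hint1)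
    (by simpa only [hw] using hpos)
  refine (H2 k T μ ?_).2
  rw [hμ]
  congr 1
  unfold pm
  have h3 : ∀ x, ENNReal.ofReal (∏ i, (I i).indicator (fun _ => (1 : ℝ)) ⟪v i, x⟫_ℝ) =
      (slb v I).indicator 1 x := by
    intro x
    rw [hw]
    by_cases hx : x ∈ slb v I
    · rw [indicator_of_mem hx, indicator_of_mem hx, ENNReal.ofReal_one]
      rfl
    · rw [indicator_of_notMem hx, indicator_of_notMem hx, ENNReal.ofReal_zero]
  simp only [h3]
  rw [lintegral_indicator_one hcl.measurableSet, withDensity_indicator_one hcl.measurableSet]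

end Pool.Agent.Y506.RG
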