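import Pool.Agent.H59.L.S8.Y506.RG.Star
import Pool.Agent.H59.L.S8.Y506.KS.Gp
import Pool.Agent.H59.L.S8.Y67.FF.Cen

/-!
# Smooth weights
-/

set_option autoImplicit false

namespace Pool.Agent.Y506.RG

open MeasureTheory Set Filter Topology
open scoped ENNReal InnerProductSpace
open Pool.Agent.W695.KH (Eu EU EV VV Sm Pot Uu)
open Pool.Agent.Y506.FF (Pair mat pw prj exists_coord coord_cont sum_pw pw_nonneg adj adj_apply
  adj_norm adj_le push lip_of)

/-- normalised factors -/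
theorem star_nd (hMOM : S_MOMR) (hLDK : S_LDK) (hS : S_SPL2) (hE : S_EXPD) (hPSI : S_PSI)
    (hLOG : S_LOGR) (hV : S_VARR) (hTH : S_THR) (hT1 : S_T1) (hT2 : S_T2) (hONE : S_ONE)
    (hPOT : S_POTR) (d : ℕ) : ∃ c : ℝ, 0 < c ∧ ∀ (ι : Type) [Fintype ι] (n : ℕ) (f : ι → ℝ → ℝ),
      (∀ i, ND (f i)) → HP f → ∀ (L : Eu (Fin (n + 1)) →ₗᵢ[ℝ] Eu ι)
      (M : Eu (Fin d) →ₗᵢ[ℝ] Eu ι), Pair L M → Adm (w0 f L) ∧ Star c (w0 f L) := by
  obtain ⟨C, hC, HC⟩ := hONE
  obtain ⟨C1, hC1, H1⟩ := sec1R hMOM hLDK hS hE hPSI C hC d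
  obtain ⟨l, hl, H2⟩ := badR hMOM hLDK hS hE hPSI hLOG hV hTH hT1 hT2 C hC d
  have hC10 : 0 < C1 := by linarith
  refine ⟨2 / l / Real.sqrt (1 / (32 * C1 ^ 2)), by positivity, fun ι _ n f hnd hp L M hP => ?_⟩
  have hf : PD C f := ⟨hnd, fun i => HC (f i) (hnd i)⟩
  obtain ⟨v1, v2, HP1⟩ := H1 ι n f hf L M hP
  obtain ⟨hA, he⟩ := admS f hf L M hC1 v1 v2 HP1
  refine ⟨hA, star_of hA (1 / (32 * C1 ^ 2)) (2 / l) (by positivity) (by positivity) ?_ ?_⟩
  · intro θ hθ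
    obtain ⟨P, hPP⟩ := HP1 θ hθ
    exact lowR f hf L M hC1 hA he θ P hPP
  · intro g L' M' hg hb h5
    refine milR hPOT f hf hp L hA l hl ?_ g L' M' hg hb h5
    intro v hv hv1 hvl
    obtain ⟨m, hm, hbad⟩ := H2 ι n f hf L M hP v hv hv1 hvl
    exact concR f hf L M hA he v hv.continuous hv1 m hm hbad

/-- smooth factors -/
theorem star_gd (hMOM : S_MOMR) (hLDK : S_LDK) (hS : S_SPL2) (hE : S_EXPD) (hPSI : S_PSI)
    (hLOG : S_LOGR) (hV : S_VARR) (hTH : S_THR) (hT1 : S_T1) (hT2 : S_T2) (hONE : S_ONE)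
    (hPOT : S_POTR) (hTI : S_TILT) (hNO : S_NORM) (d : ℕ) : ∃ c : ℝ, 0 < c ∧ ∀ (n N : ℕ),
      N = n + 1 + d → ∀ (ell : Eu (Fin (n + 1)) →ₗ[ℝ] Eu (Fin N)), (∀ x, ell x = 0 → x = 0) →
      ∀ H : Fin N → ℝ → ℝ, (∀ i, GD (H i)) → Star c fun x => ∏ i, H i (ell x i) := by
  obtain ⟨c, hc, H0⟩ := star_nd hMOM hLDK hS hE hPSI hLOG hV hTH hT1 hT2 hONE hPOT d
  refine ⟨c, hc, fun n N hN ell hell H hH => ?_⟩
  obtain ⟨a, x0, ha, hm⟩ := hTI (Fin N) (n + 1) ell H hH
  choose σ z f hσ hz hnd hfz hpot using fun i => hNO (H i) (hH i) (a i) (ell x0 i) (hm i)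
  let Q : Eu (Fin (n + 1)) →ₗ[ℝ] Eu (Fin N) :=
    { toFun := fun x => WithLp.toLp 2 fun i => ell x i / σ i
      map_add' := fun x y => by
        ext i
        simp [add_div]
      map_smul' := fun c x => by
        ext i
        simp [mul_div_assoc] }
  have hQi : ∀ x i, Q x i = ell x i / σ i := fun x i => rfl
  have hker : ∀ x, Q x = 0 → x = 0 := by
    intro x hx
    refine hell x ?_
    ext i
    have h1 : Q x i = 0 := by rw [hx]; rfl
    rw [hQi, div_eq_zero_iff] at h1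
    rcases h1 with h1 | h1
    · exact h1
    · exact absurd h1 (hσ i).ne'
  have hinj : Function.Injective Q := by
    intro x y hxy
    have := hker (x - y) (by rw [map_sub, hxy, sub_self])
    exact sub_eq_zero.1 this
  obtain ⟨T, hT⟩ := Pool.Agent.Y506.KS.exists_T Q hinj
  let L : Eu (Fin (n + 1)) →ₗᵢ[ℝ] Eu (Fin N) :=
    { toLinearMap := Q.comp T.symm.toLinearEquiv.toLinearMap
      norm_map' := fun x => by
        have h1 := hT (T.symm x)
        rw [ContinuousLinearEquiv.apply_symm_apply] at h1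
        rw [h1]
        rfl }
  have hL : ∀ x, L x = Q (T.symm x) := fun x => rfl
  obtain ⟨M, hP⟩ := Pool.Agent.Y67.FF.cpl (Fin N) (n + 1) d L (by rw [Fintype.card_fin]; omega)
  obtain ⟨hA, hst⟩ := H0 (Fin N) n f hnd hpot L M hP
  refine star_aff T x0 (∏ i, z i) (Finset.prod_pos fun i _ => hz i) _ (w0 f L) ?_ hA hst
  intro x
  have h1 : ∏ i, H i (ell x i) = ∏ i, (H i (ell x i) * Real.exp (a i * ell x i)) := by
    rw [Finset.prod_mul_distrib, ← Real.exp_sum, ha x, Real.exp_zero, mul_one]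
  rw [h1]
  unfold w0
  rw [← Finset.prod_mul_distrib]
  refine Finset.prod_congr rfl fun i _ => ?_
  rw [hfz i, hL, ContinuousLinearEquiv.symm_apply_apply, hQi, map_sub]
  rfl

theorem max_const (P : ℕ → ℝ → Prop) (h : ∀ d, ∃ c, 0 < c ∧ P d c)
    (hmono : ∀ d c c', c ≤ c' → P d c → P d c') (q : ℕ) :
    ∃ c, 0 < c ∧ ∀ d, d ≤ q → P d c := by
  choose c hc H using h
  refine ⟨1 + ∑ d ∈ Finset.range (q + 1), c d, ?_, fun d hd => ?_⟩
  · have : 0 ≤ ∑ d ∈ Finset.range (q + 1), c d := Finset.sum_nonneg fun i _ => (hc i).le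
    linarith
  · refine hmono d (c d) _ ?_ (H d)
    have := Finset.single_le_sum (f := c) (fun i _ => (hc i).le)
      (Finset.mem_range.2 (Nat.lt_succ_of_le hd))
    linarith

/-- general weights -/
theorem star_lc (hMOM : S_MOMR) (hLDK : S_LDK) (hS : S_SPL2) (hE : S_EXPD) (hPSI : S_PSI)
    (hLOG : S_LOGR) (hV : S_VARR) (hTH : S_THR) (hT1 : S_T1) (hT2 : S_T2) (hONE : S_ONE)
    (hPOT : S_POTR) (hTI : S_TILT) (hNO : S_NORM) (hAP : S_APX) (q : ℕ) : ∃ c : ℝ, 0 < c ∧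
      ∀ (n N : ℕ), 1 ≤ n → N ≤ n + q → ∀ (ell : Eu (Fin n) →ₗ[ℝ] Eu (Fin N)),
      (∀ x, ell x = 0 → x = 0) → ∀ h : Fin N → ℝ → ℝ, (∀ i, LC1 (h i)) →
      Integrable (fun x => (1 + ‖x‖ ^ 2) * ∏ i, h i (ell x i)) →
      0 < ∫ x, ∏ i, h i (ell x i) → Star c fun x => ∏ i, h i (ell x i) := by
  obtain ⟨c, hc, H0⟩ := max_const (fun d c => ∀ (n N : ℕ),
      N = n + 1 + d → ∀ (ell : Eu (Fin (n + 1)) →ₗ[ℝ] Eu (Fin N)), (∀ x, ell x = 0 → x = 0) →
      ∀ H : Fin N → ℝ → ℝ, (∀ i, GD (H i)) → Star c fun x => ∏ i, H i (ell x i))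
    (fun d => star_gd hMOM hLDK hS hE hPSI hLOG hV hTH hT1 hT2 hONE hPOT hTI hNO d)
    (fun d c c' hcc h n N hN ell hell H hH => Star.mono hcc
      (fun x => Finset.prod_nonneg fun i _ => ((hH i).pos _).le) (h n N hN ell hell H hH)) q
  refine ⟨c, hc, ?_⟩
  intro n N hn hN ell hell h hh hint hpos
  classical
  obtain ⟨m, rfl⟩ : ∃ m, n = m + 1 := ⟨n - 1, by omega⟩
  have hnN : m + 1 ≤ N := by
    have hinj : Function.Injective ell := by
      intro x y hxy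
      have := hell (x - y) (by rw [map_sub, hxy, sub_self])
      exact sub_eq_zero.1 this
    have := LinearMap.finrank_le_finrank_of_injective (f := ell) hinj
    simpa using this
  -- nonzero functionals
  let ell' : Eu (Fin (m + 1)) →ₗ[ℝ] Eu (Fin N) :=
    { toFun := fun x => WithLp.toLp 2 fun i => if (∃ y, ell y i ≠ 0) then ell x i else x 0
      map_add' := fun x y => by
        ext i
        by_cases h0 : ∃ y, ell y i ≠ 0
        · simp [h0]
        · simp [h0]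
      map_smul' := fun c x => by
        ext i
        by_cases h0 : ∃ y, ell y i ≠ 0
        · simp [h0]
        · simp [h0] }
  have he1 : ∀ x i, (∃ y, ell y i ≠ 0) → ell' x i = ell x i := by
    intro x i h0
    show (if (∃ y, ell y i ≠ 0) then ell x i else x 0) = ell x i
    rw [if_pos h0]
  have he2 : ∀ x i, (¬ ∃ y, ell y i ≠ 0) → ell' x i = x 0 := by
    intro x i h0
    show (if (∃ y, ell y i ≠ 0) then ell x i else x 0) = x 0
    rw [if_neg h0]
  obtain ⟨h', hh'⟩ : ∃ h' : Fin N → ℝ → ℝ, h' = fun i => if (∃ y, ell y i ≠ 0) then h i else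
    fun _ => h i 0 := ⟨_, rfl⟩
  have hp : ∀ x, ∏ i, h i (ell x i) = ∏ i, h' i (ell' x i) := by
    intro x
    refine Finset.prod_congr rfl fun i _ => ?_
    rw [hh']
    by_cases h0 : ∃ y, ell y i ≠ 0
    · simp only
      rw [if_pos h0, he1 x i h0]
    · simp only
      rw [if_neg h0]
      have h1 : ell x i = 0 := by
        by_contra h2
        exact h0 ⟨x, h2⟩
      rw [h1]
  have hlc' : ∀ i, LC1 (h' i) := by
    intro i
    rw [hh']
    by_cases h0 : ∃ y, ell y i ≠ 0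
    · simp only
      rw [if_pos h0]
      exact hh i
    · simp only
      rw [if_neg h0]
      refine ⟨fun _ => (hh i).nonneg 0, measurable_const, fun x y t h1 h2 => ?_⟩
      have h3 := (hh i).nonneg 0
      rcases h3.eq_or_lt with h4 | h4
      · rw [← h4, Real.zero_rpow h1.ne', mul_zero]
      · rw [← Real.rpow_add h4, sub_add_cancel, Real.rpow_one]
  simp only [hp] at hint hpos ⊢
  refine hAP N (m + 1) c ell' hc.le ?_ ?_ ?_ h' hlc' hint hpos
  · intro x hx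
    refine hell x ?_
    ext i
    by_cases h0 : ∃ y, ell y i ≠ 0
    · rw [← he1 x i h0, hx]
    · by_contra h2
      exact h0 ⟨x, h2⟩
  · intro i
    by_cases h0 : ∃ y, ell y i ≠ 0
    · obtain ⟨y, hy⟩ := h0
      exact ⟨y, by rw [he1 y i ⟨y, hy⟩]; exact hy⟩
    · refine ⟨EuclideanSpace.single 0 1, ?_⟩
      rw [he2 _ i h0]
      simp
  · intro H hH
    refine H0 (N - (m + 1)) (by omega) m N (by omega) ell' ?_ H hH
    intro x hx
    refine hell x ?_
    ext i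
    by_cases h0 : ∃ y, ell y i ≠ 0
    · rw [← he1 x i h0, hx]
    · by_contra h2
      exact h0 ⟨x, h2⟩

end Pool.Agent.Y506.RG
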