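import Pool.Agent.H59.L.S8.Y506.RG.Wt
import Pool.Agent.H59.L.S8.Y445.FF.Mila

/-!
# The inequality for sections in normalised position
-/

set_option autoImplicit false

namespace Pool.Agent.Y506.RG

open MeasureTheory Set Filter Topology
open scoped ENNReal InnerProductSpace
open Pool.Agent.W695.KH (Eu EU EV VV Sm Pot Uu)
open Pool.Agent.Y506.FF (Pair mat pw prj exists_coord coord_cont sum_pw pw_nonneg adj adj_apply
  adj_norm adj_le push lip_of)

variable {n : ℕ}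

theorem lin_int {w : Eu (Fin n) → ℝ} (h : Adm w) (v : Eu (Fin n) → ℝ) (hv : Measurable v) (K : ℝ)
    (hK : ∀ x, |v x| ≤ K * (1 + ‖x‖)) :
    (Integrable fun x => v x * w x) ∧ Integrable fun x => v x ^ 2 * w x := by
  have hK0 : 0 ≤ K := by
    have h1 := (abs_nonneg _).trans (hK 0)
    rw [norm_zero, add_zero, mul_one] at h1
    exact h1
  constructor
  · refine h.of_bd v hv (2 * K) fun x => (hK x).trans ?_
    nlinarith [mul_nonneg hK0 (sq_nonneg (‖x‖ - 1)), mul_nonneg hK0 (norm_nonneg x)]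
  · refine h.of_bd (fun x => v x ^ 2) (hv.pow_const 2) (2 * K ^ 2) fun x => ?_
    rw [abs_of_nonneg (sq_nonneg _), ← sq_abs]
    calc |v x| ^ 2 ≤ (K * (1 + ‖x‖)) ^ 2 := pow_le_pow_left₀ (abs_nonneg _) (hK x) 2
      _ ≤ 2 * K ^ 2 * (1 + ‖x‖ ^ 2) := by
          nlinarith [mul_nonneg (sq_nonneg K) (sq_nonneg (‖x‖ - 1))]

theorem inner_bd (θ : Eu (Fin n)) (x : Eu (Fin n)) : |⟪θ, x⟫_ℝ| ≤ ‖θ‖ * (1 + ‖x‖) := by
  refine (abs_real_inner_le_norm θ x).trans ?_
  nlinarith [norm_nonneg θ, norm_nonneg x]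

/-- lower bound for the covariance -/
theorem lowR {ι : Type} [Fintype ι] {d : ℕ} {C C1 : ℝ} (f : ι → ℝ → ℝ) (hf : PD C f)
    (L : Eu (Fin (n + 1)) →ₗᵢ[ℝ] Eu ι) (M : Eu (Fin d) →ₗᵢ[ℝ] Eu ι) (hC1 : 1 ≤ C1)
    (hA : Adm (w0 f L)) (he : ENNReal.ofReal (∫ x, w0 f L x) = gR f L M 0)
    (θ : Eu (Fin (n + 1))) (P : ℝ → ℝ≥0∞) (hP : S1 C1 f L M θ P) :
    1 / (32 * C1 ^ 2) ≤ VW (w0 f L) fun x => ⟪θ, x⟫_ℝ := by
  have hC10 : 0 < C1 := by linarith
  have hf0 : ∀ i s, 0 ≤ f i s := fun i s => ((hf.nd i).pos s).le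
  obtain ⟨i1, i2⟩ := lin_int hA (fun x => ⟪θ, x⟫_ℝ) (by fun_prop) ‖θ‖ (inner_bd θ)
  obtain ⟨a, ha⟩ : ∃ a : ℝ, a = EW (w0 f L) fun x => ⟪θ, x⟫_ℝ := ⟨_, rfl⟩
  have h1 := VW_shift hA (fun x => ⟪θ, x⟫_ℝ) i1 i2 a
  rw [← ha, sub_self] at h1
  have h1' : VW (w0 f L) (fun x => ⟪θ, x⟫_ℝ) = EW (w0 f L) (fun x => (⟪θ, x⟫_ℝ - a) ^ 2) := by
    rw [h1]
    ring
  rw [h1']
  have i3 : Integrable fun x => (⟪θ, x⟫_ℝ - a) ^ 2 * w0 f L x := by
    refine (lin_int hA (fun x => ⟪θ, x⟫_ℝ - a) (by fun_prop) (‖θ‖ + |a|) fun x => ?_).2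
    have h2 := inner_bd θ x
    have h3 := abs_sub ⟪θ, x⟫_ℝ a
    nlinarith [abs_nonneg a, norm_nonneg x, norm_nonneg θ, mul_nonneg (abs_nonneg a) (norm_nonneg x)]
  have h2 : ENNReal.ofReal (∫ x, (⟪θ, x⟫_ℝ - a) ^ 2 * w0 f L x) =
      gR f L M 0 * ∫⁻ u, ENNReal.ofReal ((u - a) ^ 2) * P u := by
    rw [ofReal_integral_eq_lintegral_ofReal i3 (Eventually.of_forall fun x =>
      mul_nonneg (sq_nonneg _) (hA.nonneg x)), w0_lint f hf0 L _ fun x => sq_nonneg _,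
      ← hP.int (fun u => ENNReal.ofReal ((u - a) ^ 2)) (by fun_prop)]
  have h3 := Pool.Agent.Y506.FF.low_of_bd P hP.meas C1 hC10 hP.bd hP.mass a
  have h4 : ENNReal.ofReal ((∫ x, w0 f L x) * (1 / (32 * C1 ^ 2))) ≤
      ENNReal.ofReal (∫ x, (⟪θ, x⟫_ℝ - a) ^ 2 * w0 f L x) := by
    rw [h2, ENNReal.ofReal_mul hA.pos.le, he]
    exact mul_le_mul_right h3 _
  have h5 := (ENNReal.ofReal_le_ofReal_iff (integral_nonneg fun x =>
    mul_nonneg (sq_nonneg _) (hA.nonneg x))).1 h4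
  unfold EW
  rw [le_div_iff₀ hA.pos]
  linarith

/-- concentration -/
theorem concR {ι : Type} [Fintype ι] {d : ℕ} {C : ℝ} (f : ι → ℝ → ℝ) (hf : PD C f)
    (L : Eu (Fin (n + 1)) →ₗᵢ[ℝ] Eu ι) (M : Eu (Fin d) →ₗᵢ[ℝ] Eu ι)
    (hA : Adm (w0 f L)) (he : ENNReal.ofReal (∫ x, w0 f L x) = gR f L M 0)
    (v : Eu (Fin (n + 1)) → ℝ) (hv : Continuous v) (hv1 : ∀ x, |v x| ≤ 1) (m : ℝ) (hm : |m| ≤ 1)
    (hb : ∫⁻ x in {x | 1 / 10 ≤ |v x - m|}, rr f (L x) ≤ gR f L M 0 * ENNReal.ofReal (1 / 400)) :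
    VW (w0 f L) v ≤ 1 / 25 := by
  have hf0 : ∀ i s, 0 ≤ f i s := fun i s => ((hf.nd i).pos s).le
  obtain ⟨B, hB⟩ : ∃ B : Set (Eu (Fin (n + 1))), B = {x | 1 / 10 ≤ |v x - m|} := ⟨_, rfl⟩
  have hBm : MeasurableSet B := by
    rw [hB]
    exact (isClosed_le continuous_const ((hv.sub continuous_const).abs)).measurableSet
  rw [← hB] at hb
  have hvm := hv.measurable
  have i1 := hA.bdd v hvm 1 hv1
  have i2 := hA.bdd (fun x => v x ^ 2) (hvm.pow_const 2) 1 (fun x => by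
    rw [abs_of_nonneg (sq_nonneg _), ← sq_abs]
    nlinarith [hv1 x, abs_nonneg (v x)])
  have h1 := VW_shift hA v i1 i2 m
  have h2 : VW (w0 f L) v ≤ EW (w0 f L) fun x => (v x - m) ^ 2 := by
    rw [h1]
    nlinarith [sq_nonneg (EW (w0 f L) v - m)]
  refine h2.trans ?_
  have hb2 : ∀ x, |v x - m| ≤ 2 := by
    intro x
    have := hv1 x
    have := abs_sub (v x) m
    linarith
  have i3 : Integrable fun x => (v x - m) ^ 2 * w0 f L x := by
    refine hA.bdd (fun x => (v x - m) ^ 2) ((hvm.sub_const m).pow_const 2) 4 fun x => ?_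
    rw [abs_of_nonneg (sq_nonneg _), ← sq_abs]
    nlinarith [hb2 x, abs_nonneg (v x - m)]
  have hind : Measurable (B.indicator fun _ => (4 : ℝ)) := measurable_const.indicator hBm
  have i4 : Integrable fun x => (1 / 100 + B.indicator (fun _ => (4 : ℝ)) x) * w0 f L x := by
    refine hA.bdd (fun x => 1 / 100 + B.indicator (fun _ => (4 : ℝ)) x)
      (measurable_const.add hind) 5 fun x => ?_
    by_cases hx : x ∈ B
    · rw [indicator_of_mem hx]; norm_num [abs_of_pos]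
    · rw [indicator_of_notMem hx]; norm_num [abs_of_pos]
  have i5 : Integrable fun x => B.indicator (fun _ => (4 : ℝ)) x * w0 f L x := by
    refine hA.bdd (fun x => B.indicator (fun _ => (4 : ℝ)) x) hind 4 fun x => ?_
    by_cases hx : x ∈ B
    · rw [indicator_of_mem hx]; norm_num
    · rw [indicator_of_notMem hx]; norm_num
  have i6 : Integrable fun x => (1 / 100 : ℝ) * w0 f L x := hA.one.const_mul _
  refine (EW_mono hA _ _ i3 i4 fun x => ?_).trans ?_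
  · by_cases hx : x ∈ B
    · rw [indicator_of_mem hx, ← sq_abs]
      nlinarith [abs_nonneg (v x - m), hb2 x]
    · rw [indicator_of_notMem hx, ← sq_abs]
      rw [hB, mem_ofPred_eq, not_le] at hx
      nlinarith [abs_nonneg (v x - m)]
  · rw [EW_add _ _ i6 i5, EW_const hA]
    have h6 : EW (w0 f L) (fun x => B.indicator (fun _ => (4 : ℝ)) x) ≤ 1 / 100 := by
      unfold EW
      rw [div_le_iff₀ hA.pos]
      have e1 : ∫ x, B.indicator (fun _ => (4 : ℝ)) x * w0 f L x = 4 * ∫ x in B, w0 f L x := by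
        rw [← integral_indicator hBm, ← integral_const_mul]
        refine integral_congr_ae (Eventually.of_forall fun x => ?_)
        simp only
        by_cases hx : x ∈ B
        · rw [indicator_of_mem hx, indicator_of_mem hx]
        · rw [indicator_of_notMem hx, indicator_of_notMem hx, zero_mul, mul_zero]
      have e2 : ENNReal.ofReal (∫ x in B, w0 f L x) ≤
          ENNReal.ofReal ((∫ x, w0 f L x) * (1 / 400)) := by
        rw [ofReal_integral_eq_lintegral_ofReal hA.one.integrableOn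
          (Eventually.of_forall hA.nonneg), ENNReal.ofReal_mul hA.pos.le, he]
        refine le_trans (le_of_eq ?_) hb
        exact lintegral_congr fun x => w0_ofReal f hf0 L x
      have e3 := (ENNReal.ofReal_le_ofReal_iff (mul_nonneg hA.pos.le (by norm_num))).1 e2
      rw [e1]
      linarith
    linarith

/-- potentials of the factors -/
def HP {ι : Type} (f : ι → ℝ → ℝ) : Prop := ∀ i, ∃ (V' : ℝ → ℝ) (A : ℝ), 0 < A ∧
  (∀ s, HasDerivAt (fun s => -Real.log (f i s)) (V' s) s) ∧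
    Monotone V' ∧ ∀ s t, |V' s - V' t| ≤ A * |s - t|

theorem Sm_sub {f : Eu (Fin n) → ℝ} {L M : ℝ} (hf : Sm f L M) (hb : ∀ x, |f x| ≤ 1 / 2) (a : ℝ)
    (ha : |a| ≤ 1 / 2) : Sm (fun x => f x - a) L M := by
  have hd : ∀ x, fderiv ℝ (fun x => f x - a) x = fderiv ℝ f x := fun x => fderiv_sub_const a
  refine ⟨fun x => ?_, hf.diff.sub contDiff_const, fun x => ?_, fun x y => ?_⟩
  · have h1 := abs_sub (f x) a
    have h2 := hb x
    linarith
  · rw [hd]; exact hf.grad x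
  · rw [hd, hd]; exact hf.lip x y

/-- from concentration to isoperimetry, for functions -/
theorem milR (hPOT : S_POTR) {ι : Type} [Fintype ι] {C : ℝ} (f : ι → ℝ → ℝ) (hf : PD C f)
    (hp : HP f) (L : Eu (Fin (n + 1)) →ₗᵢ[ℝ] Eu ι) (hA : Adm (w0 f L)) (l : ℝ) (hl : 0 < l)
    (hconc : ∀ v : Eu (Fin (n + 1)) → ℝ, ContDiff ℝ 1 v → (∀ x, |v x| ≤ 1) →
      (∀ x, ‖fderiv ℝ v x‖ ≤ l) → VW (w0 f L) v ≤ 1 / 25)
    (g : Eu (Fin (n + 1)) → ℝ) (L' M' : ℝ) (hg : Sm g L' M') (hb : ∀ x, |g x| ≤ 1 / 2)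
    (h5 : 1 / 5 < VW (w0 f L) g) :
    VW (w0 f L) g ≤ 2 / l * EW (w0 f L) fun x => ‖fderiv ℝ g x‖ := by
  classical
  choose V' A hA0 hV1 hV2 hV3 using hp
  obtain ⟨Z, hZ⟩ : ∃ Z : ℝ, Z = ∫ x, w0 f L x := ⟨_, rfl⟩
  have hZ0 : 0 < Z := by rw [hZ]; exact hA.pos
  obtain ⟨A', hA'⟩ : ∃ A' : ℝ, A' = 1 + ∑ i, A i := ⟨_, rfl⟩
  have hAi : ∀ i, A i ≤ A' := by
    intro i
    have := Finset.single_le_sum (f := fun i => A i) (fun i _ => (hA0 i).le) (Finset.mem_univ i)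
    rw [hA']
    linarith
  have hA'0 : 0 < A' := by
    have : 0 ≤ ∑ i, A i := Finset.sum_nonneg fun i _ => (hA0 i).le
    rw [hA']
    linarith
  have hexp : ∀ x, Real.exp (-(∑ i, -Real.log (f i (L x i)) + Real.log Z)) = w0 f L x / Z := by
    intro x
    rw [neg_add, Real.exp_add, ← Finset.sum_neg_distrib]
    simp only [neg_neg]
    rw [Real.exp_sum, Real.exp_neg, Real.exp_log hZ0, div_eq_mul_inv]
    congr 1
    unfold w0
    exact Finset.prod_congr rfl fun i _ => Real.exp_log ((hf.nd i).pos _)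
  obtain ⟨b, hpot⟩ := hPOT ι (n + 1) L (fun i s => -Real.log (f i s)) V' A' (Real.log Z) hA'0 hV1 hV2
    (fun i s t => (hV3 i s t).trans (mul_le_mul_of_nonneg_right (hAi i) (abs_nonneg _)))
    (by
      have h1 : ∀ x, (1 + ‖x‖ ^ 2) * Real.exp (-(∑ i, -Real.log (f i (L x i)) + Real.log Z)) =
          (1 + ‖x‖ ^ 2) * w0 f L x * Z⁻¹ := by
        intro x
        rw [hexp, div_eq_mul_inv, mul_assoc]
      simp only [h1]
      exact hA.int.mul_const _)
  obtain ⟨U, hU⟩ : ∃ U : Eu (Fin (n + 1)) → ℝ, U = fun x => ∑ i, -Real.log (f i (L x i)) +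
    Real.log Z := ⟨_, rfl⟩
  have hpot' : Pot U b A' := by rw [hU]; exact hpot
  have hexpU : ∀ x, Real.exp (-U x) = w0 f L x / Z := by
    intro x
    rw [hU]
    exact hexp x
  have hEU : ∀ v : Eu (Fin (n + 1)) → ℝ, EU U v = EW (w0 f L) v := by
    intro v
    unfold EU EW
    simp only [hexpU]
    rw [← hZ, ← integral_div]
    refine integral_congr_ae (Eventually.of_forall fun x => ?_)
    simp only
    ring
  have h1 : EU U (fun _ => 1) = 1 := by rw [hEU, EW_const hA]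
  have hgm := hg.diff.continuous.measurable
  have i1 := hA.bdd g hgm (1 / 2) hb
  have i2 := hA.bdd (fun x => g x ^ 2) (hgm.pow_const 2) 1 (fun x => by
    rw [abs_of_nonneg (sq_nonneg _), ← sq_abs]
    nlinarith [hb x, abs_nonneg (g x)])
  obtain ⟨a, ha⟩ : ∃ a : ℝ, a = EW (w0 f L) g := ⟨_, rfl⟩
  have ha2 : |a| ≤ 1 / 2 := by
    have i3 : Integrable fun x => (-1 / 2 : ℝ) * w0 f L x := hA.one.const_mul _
    have i4 : Integrable fun x => (1 / 2 : ℝ) * w0 f L x := hA.one.const_mul _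
    have h2 := EW_mono hA (fun _ => (-1 / 2 : ℝ)) g i3 i1 fun x => by
      have := (abs_le.1 (hb x)).1
      linarith
    have h3 := EW_mono hA g (fun _ => (1 / 2 : ℝ)) i1 i4 fun x => (abs_le.1 (hb x)).2
    rw [EW_const hA] at h2 h3
    rw [ha]
    exact abs_le.2 ⟨by linarith, h3⟩
  have h2 : EW (w0 f L) (fun x => g x - a) = 0 := by
    have i3 : Integrable fun x => (-a) * w0 f L x := hA.one.const_mul _
    have h3 := EW_add g (fun _ => -a) i1 i3
    rw [EW_const hA, ← ha] at h3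
    have e : (fun x => g x - a) = fun x => g x + -a := by
      funext x
      ring
    rw [e, h3]
    ring
  have h3 : EW (w0 f L) (fun x => (g x - a) ^ 2) = VW (w0 f L) g := by
    rw [VW_shift hA g i1 i2 a, ← ha, sub_self]
    ring
  have key := Pool.Agent.Y445.FF.mila' (Fin (n + 1)) U b A' hpot' h1 (1 / 25) l (by norm_num) hl
    (fun v h6 h7 h8 => by
      rw [hEU, hEU]
      exact hconc v h6 h7 h8)
    (fun x => g x - a) L' M' (Sm_sub hg hb a ha2) (by rw [hEU]; exact h2)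
    (by
      rw [hEU, h3]
      linarith)
  rw [hEU, hEU, h3] at key
  refine key.trans (le_of_eq ?_)
  congr 2
  funext x
  rw [fderiv_sub_const]

end Pool.Agent.Y506.RG
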