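import Pool.Agent.H59.L.S8.Y506.RG.Stm
import Pool.Agent.H59.L.S8.Y506.FF.Conc
import Pool.Agent.H59.L.S8.Y67.FF.Dec

/-!
# Marginal densities of product measures
-/

set_option autoImplicit false

namespace Pool.Agent.Y506.RG

open MeasureTheory Set Filter Topology
open scoped ENNReal InnerProductSpace
open Pool.Agent.W695.KH (Eu EU EV VV Sm Pot Uu)
open Pool.Agent.Y506.FF (Pair mat pw prj)

variable {ι : Type} [Fintype ι]

theorem rr_meas (f : ι → ℝ → ℝ) (hf : ∀ i, Measurable (f i)) : Measurable (rr f) := by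
  unfold rr
  refine Finset.measurable_prod _ fun i _ => ?_
  have h1 : Measurable fun s : Eu ι => s i := by fun_prop
  exact ENNReal.measurable_ofReal.comp ((hf i).comp h1)

theorem rr_lc (f : ι → ℝ → ℝ) (hf : ∀ i s, 0 ≤ f i s)
    (hlc : ∀ i, ∀ x y t : ℝ, 0 < t → t < 1 → f i x ^ (1 - t) * f i y ^ t ≤
      f i ((1 - t) * x + t * y)) (s u : Eu ι) (t : ℝ) (h0 : 0 < t) (h1 : t < 1) :
    rr f s ^ (1 - t) * rr f u ^ t ≤ rr f ((1 - t) • s + t • u) := by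
  have h2 : 0 < 1 - t := by linarith
  unfold rr
  rw [← ENNReal.prod_rpow_of_nonneg h2.le, ← ENNReal.prod_rpow_of_nonneg h0.le,
    ← Finset.prod_mul_distrib]
  refine Finset.prod_le_prod' fun i _ => ?_
  rw [ENNReal.ofReal_rpow_of_nonneg (hf _ _) h2.le, ENNReal.ofReal_rpow_of_nonneg (hf _ _) h0.le,
    ← ENNReal.ofReal_mul (Real.rpow_nonneg (hf _ _) _)]
  exact ENNReal.ofReal_le_ofReal (hlc i (s i) (u i) t h0 h1)

variable {n d : ℕ}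

/-- marginal density of the range of `M` -/
noncomputable def gR (f : ι → ℝ → ℝ) (L : Eu (Fin n) →ₗᵢ[ℝ] Eu ι) (M : Eu (Fin d) →ₗᵢ[ℝ] Eu ι)
    (z : Eu (Fin d)) : ℝ≥0∞ := ∫⁻ x, rr f (L x + M z)

theorem sec_meas (f : ι → ℝ → ℝ) (hf : ∀ i, Measurable (f i)) (L : Eu (Fin n) →ₗᵢ[ℝ] Eu ι)
    (b : Eu ι) : Measurable fun x : Eu (Fin n) => rr f (L x + b) := by
  refine (rr_meas f hf).comp ?_
  have h1 : Continuous fun x : Eu (Fin n) => L x + b := L.continuous.add continuous_const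
  exact h1.measurable

theorem gR_meas (f : ι → ℝ → ℝ) (hf : ∀ i, Measurable (f i)) (L : Eu (Fin n) →ₗᵢ[ℝ] Eu ι)
    (M : Eu (Fin d) →ₗᵢ[ℝ] Eu ι) : Measurable (gR f L M) := by
  unfold gR
  refine Measurable.lintegral_prod_left' (f := fun p : Eu (Fin n) × Eu (Fin d) =>
    rr f (L p.1 + M p.2)) ?_
  refine (rr_meas f hf).comp ?_
  have h1 : Continuous fun p : Eu (Fin n) × Eu (Fin d) => L p.1 + M p.2 :=
    (L.continuous.comp continuous_fst).add (M.continuous.comp continuous_snd)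
  exact h1.measurable

theorem gR_lc (f : ι → ℝ → ℝ) (hfm : ∀ i, Measurable (f i)) (hf : ∀ i s, 0 ≤ f i s)
    (hlc : ∀ i, ∀ x y t : ℝ, 0 < t → t < 1 → f i x ^ (1 - t) * f i y ^ t ≤
      f i ((1 - t) * x + t * y)) (L : Eu (Fin n) →ₗᵢ[ℝ] Eu ι) (M : Eu (Fin d) →ₗᵢ[ℝ] Eu ι)
    (x y : Eu (Fin d)) (t : ℝ) (h0 : 0 < t) (h1 : t < 1) :
    gR f L M x ^ (1 - t) * gR f L M y ^ t ≤ gR f L M ((1 - t) • x + t • y) := by
  refine Pool.Agent.H212R2.KLS.PL volume t h0 h1 _ _ _ (sec_meas f hfm L _) (sec_meas f hfm L _)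
    (sec_meas f hfm L _) fun a b => ?_
  refine (rr_lc f hf hlc _ _ t h0 h1).trans (le_of_eq ?_)
  congr 1
  rw [map_add, map_add, map_smul, map_smul, map_smul, map_smul]
  module

theorem gR_int (f : ι → ℝ → ℝ) (hfm : ∀ i, Measurable (f i)) (L : Eu (Fin n) →ₗᵢ[ℝ] Eu ι)
    (M : Eu (Fin d) →ₗᵢ[ℝ] Eu ι)
    (hP : Pair L M) (φ : Eu (Fin d) → ℝ≥0∞) (G : Eu ι → ℝ≥0∞) (hG : Measurable G)
    (h : ∀ x z, G (L x + M z) = φ z) :
    ∫⁻ z, φ z * gR f L M z = ∫⁻ s, G s * rr f s := by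
  have hm : Measurable fun s : Eu ι => G s * rr f s := hG.mul (rr_meas f hfm)
  rw [(Pool.Agent.Y67.FF.dec ι n d L M hP).2 _ hm]
  refine lintegral_congr fun z => ?_
  simp only [h]
  unfold gR
  rw [lintegral_const_mul _ (sec_meas f hfm L _)]

theorem ilk (K : ℝ) (f : ι → ℝ → ℝ) (hf : ∀ i, ND (f i))
    (hm : (∫⁻ s : Eu ι, rr f s = 1) ∧
      (∀ a : Eu ι, ∫⁻ s, ENNReal.ofReal ⟪a, s⟫_ℝ * rr f s =
        ∫⁻ s, ENNReal.ofReal (-⟪a, s⟫_ℝ) * rr f s) ∧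
      (∀ a : Eu ι, ∫⁻ s, ENNReal.ofReal (⟪a, s⟫_ℝ ^ 2) * rr f s = ENNReal.ofReal (‖a‖ ^ 2)) ∧
      (∀ a : Eu ι, ∫⁻ s, ENNReal.ofReal (⟪a, s⟫_ℝ ^ 4) * rr f s ≤
        ENNReal.ofReal (K * ‖a‖ ^ 4)) ∧
      ∀ i : ι, ∫⁻ s : Eu ι, ENNReal.ofReal ((1 + |s i|) ^ 2) * rr f s ≤ 4)
    (L : Eu (Fin n) →ₗᵢ[ℝ] Eu ι)
    (M : Eu (Fin d) →ₗᵢ[ℝ] Eu ι) (hP : Pair L M) : ILK K (gR f L M) := by
  obtain ⟨k0, k1, k2, k4, -⟩ := hm
  have hfm : ∀ i, Measurable (f i) := fun i => (hf i).cont.measurable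
  have hin : ∀ w x z, ⟪M w, L x + M z⟫_ℝ = ⟪w, z⟫_ℝ := by
    intro w x z
    rw [inner_add_right, real_inner_comm, hP.orth, zero_add, M.inner_map_map]
  have hc : ∀ w, Continuous fun s : Eu ι => ⟪M w, s⟫_ℝ := by
    intro w
    fun_prop
  refine ⟨gR_meas f hfm L M, gR_lc f hfm (fun i s => ((hf i).pos s).le) (fun i => (hf i).lc) L M,
    ?_, fun w => ?_, fun w => ?_, fun w => ?_⟩
  · have h := gR_int f hfm L M hP (fun _ => 1) (fun _ => 1) measurable_const fun _ _ => rfl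
    simp only [one_mul] at h
    rw [h, k0]
  · rw [gR_int f hfm L M hP (fun z => ENNReal.ofReal ⟪w, z⟫_ℝ)
      (fun s => ENNReal.ofReal ⟪M w, s⟫_ℝ)
      (ENNReal.measurable_ofReal.comp (hc w).measurable) (fun x z => by rw [hin]),
      gR_int f hfm L M hP (fun z => ENNReal.ofReal (-⟪w, z⟫_ℝ))
      (fun s => ENNReal.ofReal (-⟪M w, s⟫_ℝ))
      (ENNReal.measurable_ofReal.comp (hc w).neg.measurable) (fun x z => by rw [hin]), k1]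
  · rw [gR_int f hfm L M hP (fun z => ENNReal.ofReal (⟪w, z⟫_ℝ ^ 2))
      (fun s => ENNReal.ofReal (⟪M w, s⟫_ℝ ^ 2))
      (ENNReal.measurable_ofReal.comp ((hc w).pow 2).measurable) (fun x z => by rw [hin]), k2,
      M.norm_map]
  · rw [gR_int f hfm L M hP (fun z => ENNReal.ofReal (⟪w, z⟫_ℝ ^ 4))
      (fun s => ENNReal.ofReal (⟪M w, s⟫_ℝ ^ 4))
      (ENNReal.measurable_ofReal.comp ((hc w).pow 4).measurable) (fun x z => by rw [hin])]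
    have := k4 (M w)
    rwa [M.norm_map] at this

/-- the properties of product densities which are used -/
structure PD (C : ℝ) (f : ι → ℝ → ℝ) : Prop where
  nd : ∀ i, ND (f i)
  ob : ∀ i, OB C (f i)

omit [Fintype ι] in
theorem PD.meas {C : ℝ} {f : ι → ℝ → ℝ} (h : PD C f) (i : ι) : Measurable (f i) :=
  (h.nd i).cont.measurable

theorem OB.bd {C : ℝ} {f : ℝ → ℝ} (h : OB C f) (s : ℝ) : f s ≤ C := by
  have h1 := h.tail s
  have h2 := h.one_le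
  have h3 : Real.exp (-|s| / C) ≤ 1 := by
    rw [Real.exp_le_one_iff]
    have : 0 ≤ |s| / C := by positivity
    have e : -|s| / C = -(|s| / C) := by ring
    rw [e]
    linarith
  nlinarith

/-- the mass of the section, and the marginal densities -/
theorem secR (hMOM : S_MOMR) (hLDK : S_LDK) (C : ℝ) (d : ℕ) : ∃ c C1 r : ℝ, 0 < c ∧ 0 < C1 ∧
    0 < r ∧ ∀ (ι : Type) [Fintype ι] (n : ℕ) (f : ι → ℝ → ℝ), PD C f →
    ∀ (L : Eu (Fin n) →ₗᵢ[ℝ] Eu ι) (M : Eu (Fin d) →ₗᵢ[ℝ] Eu ι), Pair L M →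
    (∀ z, ‖z‖ ≤ r → ENNReal.ofReal c ≤ gR f L M z) ∧ (∀ z, gR f L M z ≤ ENNReal.ofReal C1) ∧
    ∀ z, ENNReal.ofReal (‖z‖ ^ 4) * gR f L M z ≤ ENNReal.ofReal C1 := by
  obtain ⟨K, hK1, hK⟩ := hMOM C
  obtain ⟨c, C1, r, hc, hC1, hr, H⟩ := hLDK K d hK1
  refine ⟨c, C1, r, hc, hC1, hr, fun ι _ n f hf L M hP => ?_⟩
  exact H _ (ilk K f hf.nd (hK ι f hf.nd hf.ob) L M hP)

theorem gR_zero (f : ι → ℝ → ℝ) (L : Eu (Fin n) →ₗᵢ[ℝ] Eu ι) (M : Eu (Fin d) →ₗᵢ[ℝ] Eu ι) :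
    gR f L M 0 = ∫⁻ x, rr f (L x) := by
  unfold gR
  simp

end Pool.Agent.Y506.RG
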