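import Pool.Agent.H59.L.S8.Y506.RG.Ilk

/-!
# One-dimensional marginals of sections of product measures
-/

set_option autoImplicit false

namespace Pool.Agent.Y506.RG

open MeasureTheory Set Filter Topology
open scoped ENNReal InnerProductSpace
open Pool.Agent.W695.KH (Eu EU EV VV Sm Pot Uu)
open Pool.Agent.Y506.FF (Pair mat pw prj)

variable {ι : Type} [Fintype ι]

open Classical in
/-- one factor replaced by `1` -/
noncomputable def upd (f : ι → ℝ → ℝ) (i : ι) : ι → ℝ → ℝ := Function.update f i fun _ => 1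

theorem rr_split (f : ι → ℝ → ℝ) (i : ι) (s : Eu ι) :
    rr f s = ENNReal.ofReal (f i (s i)) * rr (upd f i) s := by
  classical
  unfold rr
  rw [← Finset.mul_prod_erase Finset.univ (fun j => ENNReal.ofReal (f j (s j)))
    (Finset.mem_univ i), ← Finset.mul_prod_erase Finset.univ
    (fun j => ENNReal.ofReal (upd f i j (s j))) (Finset.mem_univ i)]
  have h1 : ENNReal.ofReal (upd f i i (s i)) = 1 := by
    unfold upd
    rw [Function.update_self, ENNReal.ofReal_one]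
  rw [h1, one_mul]
  congr 1
  refine Finset.prod_congr rfl fun j hj => ?_
  unfold upd
  rw [Function.update_of_ne (Finset.ne_of_mem_erase hj)]

omit [Fintype ι] in
theorem upd_meas (f : ι → ℝ → ℝ) (hf : ∀ i, Measurable (f i)) (i j : ι) :
    Measurable (upd f i j) := by
  classical
  unfold upd
  by_cases h : j = i
  · subst h
    rw [Function.update_self]
    exact measurable_const
  · rw [Function.update_of_ne h]
    exact hf j

omit [Fintype ι] in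
theorem upd_nonneg (f : ι → ℝ → ℝ) (hf : ∀ i s, 0 ≤ f i s) (i j : ι) (s : ℝ) :
    0 ≤ upd f i j s := by
  classical
  unfold upd
  by_cases h : j = i
  · subst h
    rw [Function.update_self]
    exact zero_le_one
  · rw [Function.update_of_ne h]
    exact hf j s

omit [Fintype ι] in
theorem upd_lc (f : ι → ℝ → ℝ)
    (hlc : ∀ i, ∀ x y t : ℝ, 0 < t → t < 1 → f i x ^ (1 - t) * f i y ^ t ≤
      f i ((1 - t) * x + t * y)) (i j : ι) (x y t : ℝ) (h0 : 0 < t) (h1 : t < 1) :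
    upd f i j x ^ (1 - t) * upd f i j y ^ t ≤ upd f i j ((1 - t) * x + t * y) := by
  classical
  unfold upd
  by_cases h : j = i
  · subst h
    rw [Function.update_self, Real.one_rpow, Real.one_rpow, mul_one]
  · rw [Function.update_of_ne h]
    exact hlc j x y t h0 h1

theorem ray_lc {d : ℕ} (g : Eu (Fin d) → ℝ≥0∞)
    (h : ∀ x y, ∀ t : ℝ, 0 < t → t < 1 → g x ^ (1 - t) * g y ^ t ≤ g ((1 - t) • x + t • y))
    (e : Eu (Fin d)) (x y t : ℝ) (h0 : 0 < t) (h1 : t < 1) :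
    g (x • e) ^ (1 - t) * g (y • e) ^ t ≤ g (((1 - t) * x + t * y) • e) := by
  refine (h _ _ t h0 h1).trans (le_of_eq ?_)
  congr 1
  module

theorem smul_lc (P : ℝ → ℝ≥0∞)
    (h : ∀ x y t : ℝ, 0 < t → t < 1 → P x ^ (1 - t) * P y ^ t ≤ P ((1 - t) * x + t * y))
    (m : ℝ≥0∞) (hm0 : m ≠ 0) (hm1 : m ≠ ⊤) (x y t : ℝ) (h0 : 0 < t) (h1 : t < 1) :
    (m * P x) ^ (1 - t) * (m * P y) ^ t ≤ m * P ((1 - t) * x + t * y) := by
  rw [ENNReal.mul_rpow_of_nonneg _ _ (by linarith), ENNReal.mul_rpow_of_nonneg _ _ h0.le]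
  calc m ^ (1 - t) * P x ^ (1 - t) * (m ^ t * P y ^ t)
      = (m ^ (1 - t) * m ^ t) * (P x ^ (1 - t) * P y ^ t) := by ring
    _ = m * (P x ^ (1 - t) * P y ^ t) := by
        rw [← ENNReal.rpow_add _ _ hm0 hm1, sub_add_cancel, ENNReal.rpow_one]
    _ ≤ _ := mul_le_mul_right (h x y t h0 h1) _

/-- data of a one-dimensional marginal -/
structure S1 {n d : ℕ} (C : ℝ) (f : ι → ℝ → ℝ) (L : Eu (Fin n) →ₗᵢ[ℝ] Eu ι)
    (M : Eu (Fin d) →ₗᵢ[ℝ] Eu ι) (θ : Eu (Fin n)) (P : ℝ → ℝ≥0∞) : Prop where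
  meas : Measurable P
  bd : ∀ u, P u ≤ ENNReal.ofReal C
  mass : ∫⁻ u, P u = 1
  sec : ∫⁻ u, ENNReal.ofReal (u ^ 2) * P u ≤ ENNReal.ofReal C
  dec : ∀ u, P u ≤ ENNReal.ofReal (C * Real.exp (-|u| / C))
  int : ∀ φ : ℝ → ℝ≥0∞, Measurable φ →
    ∫⁻ x, φ ⟪θ, x⟫_ℝ * rr f (L x) = gR f L M 0 * ∫⁻ u, φ u * P u
  crd : ∀ (i : ι) (γ : ℝ), 0 < γ → (∀ x, L x i = γ * ⟪θ, x⟫_ℝ) →
    ∀ u, P u ≤ ENNReal.ofReal (C * f i (γ * u) * Real.exp (C * |u|))

theorem exp_mono {C D u : ℝ} (hC : 0 < C) (h : C ≤ D) :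
    C * Real.exp (-|u| / C) ≤ D * Real.exp (-|u| / D) := by
  have h1 : Real.exp (-|u| / C) ≤ Real.exp (-|u| / D) := by
    refine Real.exp_le_exp.2 ?_
    rw [neg_div, neg_div, neg_le_neg_iff]
    exact div_le_div_of_nonneg_left (abs_nonneg u) hC h
  exact mul_le_mul h h1 (Real.exp_pos _).le (hC.le.trans h)

theorem S1.mono {n d : ℕ} {C D : ℝ} (hC : 0 < C) (hD : C ≤ D) {f : ι → ℝ → ℝ}
    (hf : ∀ i s, 0 ≤ f i s) {L : Eu (Fin n) →ₗᵢ[ℝ] Eu ι}
    {M : Eu (Fin d) →ₗᵢ[ℝ] Eu ι} {θ : Eu (Fin n)} {P : ℝ → ℝ≥0∞} (h : S1 C f L M θ P) :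
    S1 D f L M θ P where
  meas := h.meas
  bd := fun u => (h.bd u).trans (ENNReal.ofReal_le_ofReal hD)
  mass := h.mass
  sec := h.sec.trans (ENNReal.ofReal_le_ofReal hD)
  dec := fun u => (h.dec u).trans (ENNReal.ofReal_le_ofReal (exp_mono hC hD))
  int := h.int
  crd := fun i γ h1 h2 u => (h.crd i γ h1 h2 u).trans (ENNReal.ofReal_le_ofReal (by
    refine mul_le_mul (mul_le_mul_of_nonneg_right hD (hf _ _)) (Real.exp_le_exp.2
      (mul_le_mul_of_nonneg_right hD (abs_nonneg u))) (Real.exp_pos _).le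
      (mul_nonneg (hC.le.trans hD) (hf _ _))))

/-- growth in a coordinate direction -/
theorem crdR (hPSI : S_PSI) (C c C1 r : ℝ) (hC : 1 ≤ C) (hc : 0 < c) (hC1 : 0 < C1) (hr : 0 < r) :
    ∃ C2 : ℝ, 1 ≤ C2 ∧ ∀ (ι : Type) [Fintype ι] (n d : ℕ) (f : ι → ℝ → ℝ), PD C f →
    ∀ (L : Eu (Fin (n + 1)) →ₗᵢ[ℝ] Eu ι) (M : Eu (Fin d) →ₗᵢ[ℝ] Eu ι), Pair L M →
    ∀ θ : Eu (Fin (n + 1)), ‖θ‖ = 1 →
    ∀ (L' : Eu (Fin n) →ₗᵢ[ℝ] Eu ι) (M' : Eu (Fin (d + 1)) →ₗᵢ[ℝ] Eu ι) (e : Eu (Fin (d + 1))),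
    Pair L' M' → ‖e‖ = 1 → M' e = L θ → (∀ z, ∃ z', M' z' = M z) →
    (∀ z, ‖z‖ ≤ r → ENNReal.ofReal c ≤ gR f L' M' z) → (∀ z, gR f L' M' z ≤ ENNReal.ofReal C1) →
    ∀ (i : ι) (γ : ℝ), 0 < γ → (∀ x, L x i = γ * ⟪θ, x⟫_ℝ) →
    ∀ u : ℝ, gR f L' M' (u • e) ≤ ENNReal.ofReal (C2 * f i (γ * u) * Real.exp (C2 * |u|)) := by
  obtain ⟨C2, hC2, H⟩ := hPSI c C1 r C hc hC1 hr hC
  refine ⟨C2, hC2, fun ι _ n d f hf L M hP θ hθ L' M' e hP' he heM hzz hlow hup i γ hγ hi u => ?_⟩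
  classical
  have hfm : ∀ i, Measurable (f i) := hf.meas
  have hf0 : ∀ i s, 0 ≤ f i s := fun i s => ((hf.nd i).pos s).le
  have hflc := fun i => (hf.nd i).lc
  obtain ⟨x0, z0, hxz⟩ := (Pool.Agent.Y67.FF.dec ι (n + 1) d L M hP).1
    (EuclideanSpace.single i (1 : ℝ))
  have hin : ∀ s : Eu ι, ⟪s, EuclideanSpace.single i (1 : ℝ)⟫_ℝ = s i := by
    intro s
    rw [EuclideanSpace.inner_single_right]
    simp
  have hx0 : x0 = γ • θ := by
    refine ext_inner_left ℝ fun x => ?_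
    have h1 : ⟪L x, EuclideanSpace.single i (1 : ℝ)⟫_ℝ = ⟪x, x0⟫_ℝ := by
      rw [hxz, inner_add_right, hP.orth, add_zero, L.inner_map_map]
    rw [← h1, hin, hi, real_inner_smul_right, real_inner_comm]
  obtain ⟨z1, hz1⟩ := hzz z0
  have hL'0 : ∀ x, L' x i = 0 := by
    intro x
    have h1 : EuclideanSpace.single i (1 : ℝ) = M' (γ • e + z1) := by
      rw [map_add, map_smul, heM, hz1, hxz, hx0, map_smul]
    rw [← hin, h1, hP'.orth]
  have hM'i : ∀ u : ℝ, M' (u • e) i = γ * u := by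
    intro u
    rw [map_smul, heM]
    have h1 : (u • L θ) i = u * L θ i := rfl
    rw [h1, hi, real_inner_self_eq_norm_sq, hθ]
    ring
  have hco : ∀ (u : ℝ) (x : Eu (Fin n)), (L' x + M' (u • e)) i = γ * u := by
    intro u x
    have h1 : (L' x + M' (u • e)) i = L' x i + M' (u • e) i := rfl
    rw [h1, hL'0, hM'i, zero_add]
  obtain ⟨ψ, hψ⟩ : ∃ ψ : ℝ → ℝ≥0∞, ψ = fun u => gR (upd f i) L' M' (u • e) := ⟨_, rfl⟩
  have hprod : ∀ u : ℝ, gR f L' M' (u • e) = ENNReal.ofReal (f i (γ * u)) * ψ u := by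
    intro u
    rw [hψ]
    simp only
    unfold gR
    rw [← lintegral_const_mul _ (sec_meas (upd f i) (upd_meas f hfm i) L' _)]
    refine lintegral_congr fun x => ?_
    rw [rr_split f i, hco]
  have hψlc : ∀ x y t : ℝ, 0 < t → t < 1 → ψ x ^ (1 - t) * ψ y ^ t ≤ ψ ((1 - t) * x + t * y) := by
    intro x y t h0 h1
    rw [hψ]
    exact ray_lc _ (gR_lc (upd f i) (upd_meas f hfm i) (upd_nonneg f hf0 i) (upd_lc f hflc i) L' M')
      e x y t h0 h1
  have hCf : ∀ s, f i s ≤ C := (hf.ob i).bd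
  have key := H (fun u => f i (γ * u)) ψ (fun s => (hf.nd i).pos _) (fun s => hCf _)
    (by
      show 1 / C ≤ f i (γ * 0)
      rw [mul_zero]
      exact (hf.ob i).zero) hψlc
    (fun u hu => by
      rw [← hprod]
      refine hlow _ ?_
      rw [norm_smul, he, mul_one]
      exact hu)
    (fun u => by rw [← hprod]; exact hup _) u
  rw [hprod]
  calc ENNReal.ofReal (f i (γ * u)) * ψ u
      ≤ ENNReal.ofReal (f i (γ * u)) * ENNReal.ofReal (C2 * Real.exp (C2 * |u|)) :=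
        mul_le_mul_right key _
    _ = _ := by
        rw [← ENNReal.ofReal_mul (hf0 _ _)]
        congr 1
        ring

/-- **one-dimensional marginals of the section** -/
theorem sec1R (hMOM : S_MOMR) (hLDK : S_LDK) (hS : S_SPL2) (hE : S_EXPD) (hPSI : S_PSI)
    (C : ℝ) (hC : 1 ≤ C) (d : ℕ) :
    ∃ C1 : ℝ, 1 ≤ C1 ∧ ∀ (ι : Type) [Fintype ι] (n : ℕ) (f : ι → ℝ → ℝ), PD C f →
      ∀ (L : Eu (Fin (n + 1)) →ₗᵢ[ℝ] Eu ι)
      (M : Eu (Fin d) →ₗᵢ[ℝ] Eu ι), Pair L M → ENNReal.ofReal (1 / C1) ≤ gR f L M 0 ∧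
      gR f L M 0 ≤ ENNReal.ofReal C1 ∧ ∀ θ : Eu (Fin (n + 1)),
      ‖θ‖ = 1 → ∃ P : ℝ → ℝ≥0∞, S1 C1 f L M θ P := by
  obtain ⟨c, C0, r, hc, hC0, hr, H⟩ := secR hMOM hLDK C d
  obtain ⟨c', C', r', hc', hC', hr', H'⟩ := secR hMOM hLDK C (d + 1)
  obtain ⟨C2, hC2, HC⟩ := crdR hPSI C c' C' r' hC hc' hC' hr'
  obtain ⟨C3, hC3, HE⟩ := hE (c' / C0) (C' / c) (by positivity) (by positivity)
  obtain ⟨C1, hC1⟩ : ∃ C1 : ℝ, C1 = 1 + C0 + 1 / c + C' / c + 2 * Real.pi * (C' / c) + C3 +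
    C2 / c + C2 := ⟨_, rfl⟩
  have hpi := Real.pi_pos
  have q1 : 0 < C' / c := by positivity
  have q2 : 0 < 2 * Real.pi * (C' / c) := by positivity
  have q3 : 0 < C2 / c := by positivity
  have q4 : 0 < 1 / c := by positivity
  refine ⟨C1, by linarith, fun ι _ n f hf L M hP => ?_⟩
  have hC10 : 0 < C1 := by linarith
  obtain ⟨g0, g1, -⟩ := H ι (n + 1) f hf L M hP
  have v1 := g0 0 (by rw [norm_zero]; exact hr.le)
  have v2 := g1 0
  obtain ⟨m, hm⟩ : ∃ m : ℝ≥0∞, m = gR f L M 0 := ⟨_, rfl⟩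
  rw [← hm] at v1 v2 ⊢
  have hm0 : m ≠ 0 := by
    intro h0
    rw [h0, nonpos_iff_eq_zero, ENNReal.ofReal_eq_zero] at v1
    linarith
  have hm1 : m ≠ ⊤ := ne_top_of_le_ne_top ENNReal.ofReal_ne_top v2
  refine ⟨le_trans (ENNReal.ofReal_le_ofReal ?_) v1, v2.trans (ENNReal.ofReal_le_ofReal
    (by linarith)), fun θ hθ => ?_⟩
  · rw [div_le_iff₀ hC10]
    have h1 : c * (1 / c) ≤ c * C1 := mul_le_mul_of_nonneg_left (by linarith) hc.le
    rwa [mul_one_div_cancel hc.ne'] at h1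
  have hfm := hf.meas
  have hf0 : ∀ i s, 0 ≤ f i s := fun i s => ((hf.nd i).pos s).le
  have hflc := fun i => (hf.nd i).lc
  obtain ⟨L', M', e, hP', he, heM, hzz, hint⟩ := hS ι n d L M hP θ hθ
  obtain ⟨k0, k1, k2⟩ := H' ι n f hf L' M' hP'
  have hpm : Measurable fun u : ℝ => gR f L' M' (u • e) := by
    refine (gR_meas f hfm L' M').comp ?_
    have : Continuous fun u : ℝ => u • e := by fun_prop
    exact this.measurable
  have hmc : m⁻¹ ≤ ENNReal.ofReal c⁻¹ := by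
    rw [ENNReal.ofReal_inv_of_pos hc]
    exact ENNReal.inv_le_inv.2 v1
  have hq1 : ∀ u : ℝ, m⁻¹ * gR f L' M' (u • e) ≤ ENNReal.ofReal (C' / c) := by
    intro u
    calc m⁻¹ * gR f L' M' (u • e) ≤ ENNReal.ofReal c⁻¹ * ENNReal.ofReal C' :=
          mul_le_mul' hmc (k1 _)
      _ = ENNReal.ofReal (C' / c) := by
          rw [← ENNReal.ofReal_mul (by positivity)]
          congr 1
          rw [div_eq_mul_inv, mul_comm]
  have hq2 : ∀ u : ℝ, ENNReal.ofReal (u ^ 4) * (m⁻¹ * gR f L' M' (u • e)) ≤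
      ENNReal.ofReal (C' / c) := by
    intro u
    have h1 := k2 (u • e)
    have h2 : ‖u • e‖ ^ 4 = u ^ 4 := by
      rw [norm_smul, he, mul_one, Real.norm_eq_abs]
      exact Even.pow_abs (by decide) u
    rw [h2] at h1
    calc ENNReal.ofReal (u ^ 4) * (m⁻¹ * gR f L' M' (u • e))
        = m⁻¹ * (ENNReal.ofReal (u ^ 4) * gR f L' M' (u • e)) := by ring
      _ ≤ ENNReal.ofReal c⁻¹ * ENNReal.ofReal C' := mul_le_mul' hmc h1
      _ = ENNReal.ofReal (C' / c) := by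
          rw [← ENNReal.ofReal_mul (by positivity)]
          congr 1
          rw [div_eq_mul_inv, mul_comm]
  have hphi : ∀ φ : ℝ → ℝ≥0∞, Measurable φ →
      ∫⁻ x, φ ⟪θ, x⟫_ℝ * rr f (L x) = m * ∫⁻ u, φ u * (m⁻¹ * gR f L' M' (u • e)) := by
    intro φ hφ
    have h1 := hint φ (rr f) hφ (rr_meas f hfm)
    have h3 : ∫⁻ u, φ u * (m⁻¹ * gR f L' M' (u • e)) = m⁻¹ * ∫⁻ u, φ u * gR f L' M' (u • e) := by
      have hm2 : Measurable fun u : ℝ => φ u * gR f L' M' (u • e) := hφ.mul hpm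
      rw [← lintegral_const_mul _ hm2]
      refine lintegral_congr fun u => ?_
      ring
    rw [h3, ← mul_assoc, ENNReal.mul_inv_cancel hm0 hm1, one_mul, h1]
    rfl
  have hmass : ∫⁻ u : ℝ, m⁻¹ * gR f L' M' (u • e) = 1 := by
    have h1 := hphi (fun _ => 1) measurable_const
    simp only [one_mul] at h1
    have h2 : ∫⁻ x, rr f (L x) = m := by rw [hm, gR_zero]
    rw [h2] at h1
    have h3 : m * 1 = m * ∫⁻ u : ℝ, m⁻¹ * gR f L' M' (u • e) := by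
      rw [mul_one]
      exact h1
    exact ((ENNReal.mul_right_inj hm0 hm1).1 h3).symm
  have hmi0 : m⁻¹ ≠ 0 := ENNReal.inv_ne_zero.2 hm1
  have hmi1 : m⁻¹ ≠ ⊤ := ENNReal.inv_ne_top.2 hm0
  have hdec := HE (fun u : ℝ => m⁻¹ * gR f L' M' (u • e)) (measurable_const.mul hpm)
    (smul_lc (fun u : ℝ => gR f L' M' (u • e)) (fun x y t h0 h1 => ray_lc _
      (gR_lc f hfm hf0 hflc L' M') e x y t h0 h1) m⁻¹ hmi0 hmi1)
    (by
      show ENNReal.ofReal (c' / C0) ≤ m⁻¹ * gR f L' M' ((0 : ℝ) • e)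
      rw [zero_smul]
      have h1 : ENNReal.ofReal C0⁻¹ ≤ m⁻¹ := by
        rw [ENNReal.ofReal_inv_of_pos hC0]
        exact ENNReal.inv_le_inv.2 v2
      calc ENNReal.ofReal (c' / C0) = ENNReal.ofReal C0⁻¹ * ENNReal.ofReal c' := by
            rw [← ENNReal.ofReal_mul (by positivity)]
            congr 1
            rw [div_eq_mul_inv, mul_comm]
        _ ≤ _ := mul_le_mul' h1 (k0 0 (by rw [norm_zero]; exact hr'.le)))
    hq1 hmass.le
  refine ⟨fun u : ℝ => m⁻¹ * gR f L' M' (u • e), ⟨measurable_const.mul hpm, fun u => (hq1 u).trans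
    (ENNReal.ofReal_le_ofReal (by linarith)), hmass, ?_, fun u => (hdec u).trans
    (ENNReal.ofReal_le_ofReal (exp_mono (by linarith) (by linarith))), ?_, ?_⟩⟩
  · exact (Pool.Agent.Y506.FF.mom_of_decay _ _ (by positivity) hq1 hq2).trans
      (ENNReal.ofReal_le_ofReal (by linarith))
  · rw [← hm]
    exact hphi
  · intro i γ hγ hi u
    have h1 := HC ι n d f hf L M hP θ hθ L' M' e hP' he heM hzz k0 k1 i γ hγ hi u
    calc m⁻¹ * gR f L' M' (u • e)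
        ≤ ENNReal.ofReal c⁻¹ * ENNReal.ofReal (C2 * f i (γ * u) * Real.exp (C2 * |u|)) :=
          mul_le_mul' hmc h1
      _ = ENNReal.ofReal (C2 / c * f i (γ * u) * Real.exp (C2 * |u|)) := by
          rw [← ENNReal.ofReal_mul (by positivity)]
          congr 1
          ring
      _ ≤ _ := by
          refine ENNReal.ofReal_le_ofReal ?_
          refine mul_le_mul (mul_le_mul_of_nonneg_right (by linarith) (hf0 _ _))
            (Real.exp_le_exp.2 (mul_le_mul_of_nonneg_right (by linarith) (abs_nonneg u)))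
            (Real.exp_pos _).le (mul_nonneg hC10.le (hf0 _ _))

end Pool.Agent.Y506.RG
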