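import Pool.Agent.H59.L.S8.Y506.RG.Sec

/-!
# The weight is integrable
-/

set_option autoImplicit false

namespace Pool.Agent.Y506.RG

open MeasureTheory Set Filter Topology
open scoped ENNReal InnerProductSpace
open Pool.Agent.W695.KH (Eu EU EV VV Sm Pot Uu)
open Pool.Agent.Y506.FF (Pair mat pw prj exists_coord coord_cont sum_pw pw_nonneg)

theorem Iic_meas (f : ℝ → ℝ) (hf : Integrable f) : Measurable fun t : ℝ => ∫ s in Iic t, f s := by
  have h1 : Continuous fun t : ℝ => ∫ s in Iic t, f s := by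
    have h2 : (fun t : ℝ => ∫ s in Iic t, f s) = fun t =>
        (∫ s in Iic (0 : ℝ), f s) + ∫ s in (0 : ℝ)..t, f s := by
      funext t
      rw [← intervalIntegral.integral_Iic_sub_Iic hf.integrableOn hf.integrableOn]
      ring
    rw [h2]
    exact continuous_const.add (intervalIntegral.continuous_primitive (fun a b => hf.intervalIntegrable) 0)
  exact h1.measurable

theorem Ioi_meas (f : ℝ → ℝ) (hf : Integrable f) : Measurable fun t : ℝ => ∫ s in Ioi t, f s := by
  have h2 : (fun t : ℝ => ∫ s in Ioi t, f s) = fun t => (∫ s, f s) - ∫ s in Iic t, f s := by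
    funext t
    have h3 := integral_add_compl (μ := volume) (s := Iic t) measurableSet_Iic hf
    rw [compl_Iic] at h3
    linarith
  rw [h2]
  exact measurable_const.sub (Iic_meas f hf)

theorem kf_meas (f : ℝ → ℝ) (hf : ND f) : Measurable (kf f) := by
  unfold kf
  exact ((Iic_meas f hf.int0).min (Ioi_meas f hf.int0)).div hf.cont.measurable

theorem kf_zero {C : ℝ} {f : ℝ → ℝ} (hf : ND f) (h : OB C f) :
    max 0 (-Real.log (kf f 0)) ≤ 2 * C := by
  have hC := h.one_le
  have hC0 : 0 < C := by linarith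
  have hb := h.bd 0
  have h1 : 1 / C ^ 2 ≤ kf f 0 := by
    unfold kf
    rw [le_div_iff₀ (hf.pos 0)]
    calc 1 / C ^ 2 * f 0 ≤ 1 / C ^ 2 * C := mul_le_mul_of_nonneg_left hb (by positivity)
      _ = 1 / C := by field_simp
      _ ≤ _ := le_min h.ml h.mr
  refine max_le (by positivity) ?_
  have h2 : Real.log (1 / C ^ 2) ≤ Real.log (kf f 0) := Real.log_le_log (by positivity) h1
  rw [one_div, Real.log_inv, Real.log_pow] at h2
  have h3 := Real.log_le_sub_one_of_pos hC0
  push_cast at h2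
  linarith

/-- the integral of one term of `Yr` -/
theorem termYR (hMOM : S_MOMR) (hLDK : S_LDK) (hS : S_SPL2) (hE : S_EXPD) (hPSI : S_PSI)
    (hLOG : S_LOGR) (C : ℝ) (hC : 1 ≤ C) (d : ℕ) :
    ∃ C1 : ℝ, 0 < C1 ∧ ∀ (ι : Type) [Fintype ι] (n : ℕ) (f : ι → ℝ → ℝ), PD C f →
      ∀ (L : Eu (Fin (n + 1)) →ₗᵢ[ℝ] Eu ι)
      (M : Eu (Fin d) →ₗᵢ[ℝ] Eu ι), Pair L M → ∀ i : ι,
      ∫⁻ x, ENNReal.ofReal (1 + |L x i| + max 0 (-Real.log (kf (f i) (L x i)))) * rr f (L x) ≤
        gR f L M 0 * ENNReal.ofReal C1 := by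
  obtain ⟨C2, hC2, H⟩ := sec1R hMOM hLDK hS hE hPSI C hC d
  obtain ⟨C4, hC4, H4⟩ := hLOG C C2 hC2
  refine ⟨2 + C2 + C4 + 2 * C, by positivity, fun ι _ n f hf L M hP i => ?_⟩
  obtain ⟨-, -, HP⟩ := H ι n f hf L M hP
  obtain ⟨a, ha1, ha⟩ := exists_coord L i
  have hfm := hf.meas
  by_cases h0 : a = 0
  · have h1 : ∀ x, L x i = 0 := fun x => by rw [ha, h0, inner_zero_left]
    have h2 : ∀ x, ENNReal.ofReal (1 + |L x i| + max 0 (-Real.log (kf (f i) (L x i)))) *
        rr f (L x) = ENNReal.ofReal (1 + max 0 (-Real.log (kf (f i) 0))) * rr f (L x) := by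
      intro x
      rw [h1, abs_zero, add_zero]
    simp only [h2]
    have hms : Measurable fun x : Eu (Fin (n + 1)) => rr f (L x) := by
      have := sec_meas f hfm L 0
      simpa only [add_zero] using this
    rw [lintegral_const_mul _ hms, ← gR_zero f L M, mul_comm]
    refine mul_le_mul_right (ENNReal.ofReal_le_ofReal ?_) _
    have := kf_zero (hf.nd i) (hf.ob i)
    linarith
  · have hγ : 0 < ‖a‖ := norm_pos_iff.2 h0
    obtain ⟨θ, hθ⟩ : ∃ θ : Eu (Fin (n + 1)), θ = ‖a‖⁻¹ • a := ⟨_, rfl⟩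
    have hθ1 : ‖θ‖ = 1 := by
      rw [hθ, norm_smul, norm_inv, norm_norm, inv_mul_cancel₀ hγ.ne']
    have hx : ∀ x, L x i = ‖a‖ * ⟪θ, x⟫_ℝ := by
      intro x
      rw [ha, hθ, real_inner_smul_left, ← mul_assoc, mul_inv_cancel₀ hγ.ne', one_mul]
    obtain ⟨P, hPP⟩ := HP θ hθ1
    have hkm := kf_meas (f i) (hf.nd i)
    obtain ⟨φ1, hφ1⟩ : ∃ φ1 : ℝ → ℝ≥0∞, φ1 = fun u => ENNReal.ofReal (2 + u ^ 2) := ⟨_, rfl⟩
    obtain ⟨φ2, hφ2⟩ : ∃ φ2 : ℝ → ℝ≥0∞, φ2 =
      fun u => ENNReal.ofReal (max 0 (-Real.log (kf (f i) (‖a‖ * u)))) := ⟨_, rfl⟩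
    have hm1 : Measurable φ1 := by rw [hφ1]; fun_prop
    have hm2 : Measurable φ2 := by
      rw [hφ2]
      have h1 : Measurable fun u : ℝ => kf (f i) (‖a‖ * u) :=
        hkm.comp (measurable_const.mul measurable_id)
      have h2 : Measurable fun u : ℝ => Real.log (kf (f i) (‖a‖ * u)) :=
        Real.measurable_log.comp h1
      exact ENNReal.measurable_ofReal.comp (measurable_const.max h2.neg)
    calc ∫⁻ x, ENNReal.ofReal (1 + |L x i| + max 0 (-Real.log (kf (f i) (L x i)))) * rr f (L x)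
        ≤ ∫⁻ x, (fun u => φ1 u + φ2 u) ⟪θ, x⟫_ℝ * rr f (L x) := by
          refine lintegral_mono fun x => mul_le_mul_left ?_ _
          rw [ENNReal.ofReal_add (by positivity) (le_max_left _ _)]
          refine add_le_add ?_ ?_
          · rw [hφ1]
            refine ENNReal.ofReal_le_ofReal ?_
            rw [hx, abs_mul, abs_norm]
            have h6 : ‖a‖ * |⟪θ, x⟫_ℝ| ≤ 1 * |⟪θ, x⟫_ℝ| :=
              mul_le_mul_of_nonneg_right ha1 (abs_nonneg _)
            have h7 : |⟪θ, x⟫_ℝ| ≤ 1 + ⟪θ, x⟫_ℝ ^ 2 := by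
              rw [← sq_abs]
              nlinarith [sq_nonneg (|⟪θ, x⟫_ℝ| - 1), abs_nonneg ⟪θ, x⟫_ℝ]
            linarith
          · rw [hφ2, hx]
      _ = gR f L M 0 * ∫⁻ u, (φ1 u + φ2 u) * P u := hPP.int _ (hm1.add hm2)
      _ ≤ gR f L M 0 * ENNReal.ofReal (2 + C2 + C4 + 2 * C) := by
          refine mul_le_mul_right ?_ _
          have h5 : ∀ u, (φ1 u + φ2 u) * P u = 2 * P u + (ENNReal.ofReal (u ^ 2) * P u +
              φ2 u * P u) := by
            intro u
            have h6 : φ1 u = 2 + ENNReal.ofReal (u ^ 2) := by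
              rw [hφ1]
              simp only
              rw [ENNReal.ofReal_add (by positivity) (by positivity), ENNReal.ofReal_ofNat]
            rw [h6]
            ring
          simp only [h5]
          have hmq : Measurable fun u : ℝ => ENNReal.ofReal (u ^ 2) * P u :=
            (by fun_prop : Measurable fun u : ℝ => ENNReal.ofReal (u ^ 2)).mul hPP.meas
          have hmp : Measurable fun u : ℝ => 2 * P u := measurable_const.mul hPP.meas
          rw [lintegral_add_left hmp, lintegral_add_left hmq, lintegral_const_mul _ hPP.meas,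
            hPP.mass]
          have h8 : ∫⁻ u, φ2 u * P u ≤ ENNReal.ofReal C4 := by
            rw [hφ2]
            exact H4 (f i) (hf.nd i) (hf.ob i) P hPP.meas hPP.dec ‖a‖ hγ ha1
              (hPP.crd i ‖a‖ hγ hx)
          have h9 : (2 : ℝ≥0∞) = ENNReal.ofReal 2 := by rw [ENNReal.ofReal_ofNat]
          have hC20 : 0 ≤ C2 := by linarith
          calc 2 * 1 + ((∫⁻ u, ENNReal.ofReal (u ^ 2) * P u) + ∫⁻ u, φ2 u * P u)
              ≤ ENNReal.ofReal 2 + (ENNReal.ofReal C2 + ENNReal.ofReal C4) := by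
                rw [mul_one, ← h9]
                exact add_le_add le_rfl (add_le_add hPP.sec h8)
            _ ≤ _ := by
                rw [← ENNReal.ofReal_add hC20 hC4.le, ← ENNReal.ofReal_add (by norm_num)
                  (by linarith)]
                exact ENNReal.ofReal_le_ofReal (by linarith)

theorem Yr_meas {ι : Type} [Fintype ι] {n d : ℕ} (f : ι → ℝ → ℝ) (hf : ∀ i, ND (f i))
    (L : Eu (Fin n) →ₗᵢ[ℝ] Eu ι) (M : Eu (Fin d) →ₗᵢ[ℝ] Eu ι) :
    Measurable (Yr f L M) := by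
  unfold Yr
  refine Finset.measurable_sum _ fun i _ => ?_
  have h1 : Measurable fun x => L x i := (coord_cont L i).measurable
  have h2 : Measurable fun x => kf (f i) (L x i) := (kf_meas (f i) (hf i)).comp h1
  have h3 : Measurable fun x => Real.log (kf (f i) (L x i)) := Real.measurable_log.comp h2
  exact measurable_const.mul ((measurable_const.add (h1.norm)).add (measurable_const.max h3.neg))

theorem Yr_int (hMOM : S_MOMR) (hLDK : S_LDK) (hS : S_SPL2) (hE : S_EXPD) (hPSI : S_PSI)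
    (hLOG : S_LOGR) (C : ℝ) (hC : 1 ≤ C) (d : ℕ) :
    ∃ C1 : ℝ, 0 < C1 ∧ ∀ (ι : Type) [Fintype ι] (n : ℕ) (f : ι → ℝ → ℝ), PD C f →
      ∀ (L : Eu (Fin (n + 1)) →ₗᵢ[ℝ] Eu ι)
      (M : Eu (Fin d) →ₗᵢ[ℝ] Eu ι), Pair L M →
      ∫⁻ x, ENNReal.ofReal (Yr f L M x) * rr f (L x) ≤ gR f L M 0 * ENNReal.ofReal C1 := by
  obtain ⟨C1, hC1, H⟩ := termYR hMOM hLDK hS hE hPSI hLOG C hC d
  refine ⟨d * C1 + 1, by positivity, fun ι _ n f hf L M hP => ?_⟩
  have hfm := hf.meas
  have hms : Measurable fun x : Eu (Fin (n + 1)) => rr f (L x) := by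
    have := sec_meas f hfm L 0
    simpa only [add_zero] using this
  have hmt : ∀ i, Measurable fun x : Eu (Fin (n + 1)) =>
      ENNReal.ofReal (1 + |L x i| + max 0 (-Real.log (kf (f i) (L x i)))) * rr f (L x) := by
    intro i
    have h1 : Measurable fun x => L x i := (coord_cont L i).measurable
    have h2 : Measurable fun x => kf (f i) (L x i) := (kf_meas (f i) (hf.nd i)).comp h1
    have h3 : Measurable fun x => Real.log (kf (f i) (L x i)) := Real.measurable_log.comp h2
    exact (ENNReal.measurable_ofReal.comp ((measurable_const.add (h1.norm)).add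
      (measurable_const.max h3.neg))).mul hms
  calc ∫⁻ x, ENNReal.ofReal (Yr f L M x) * rr f (L x)
      = ∫⁻ x, ∑ i, ENNReal.ofReal (pw M i) *
        (ENNReal.ofReal (1 + |L x i| + max 0 (-Real.log (kf (f i) (L x i)))) * rr f (L x)) := by
        refine lintegral_congr fun x => ?_
        unfold Yr
        rw [ENNReal.ofReal_sum_of_nonneg fun i _ => mul_nonneg (pw_nonneg M i)
          (add_nonneg (by positivity) (le_max_left _ _)), Finset.sum_mul]
        refine Finset.sum_congr rfl fun i _ => ?_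
        rw [ENNReal.ofReal_mul (pw_nonneg M i), mul_assoc]
    _ = ∑ i, ENNReal.ofReal (pw M i) * ∫⁻ x,
        ENNReal.ofReal (1 + |L x i| + max 0 (-Real.log (kf (f i) (L x i)))) * rr f (L x) := by
        have hmt2 : ∀ i ∈ Finset.univ, Measurable fun x : Eu (Fin (n + 1)) =>
            ENNReal.ofReal (pw M i) *
              (ENNReal.ofReal (1 + |L x i| + max 0 (-Real.log (kf (f i) (L x i)))) *
                rr f (L x)) :=
          fun i _ => measurable_const.mul (hmt i)
        rw [lintegral_finsetSum _ hmt2]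
        refine Finset.sum_congr rfl fun i _ => ?_
        rw [lintegral_const_mul _ (hmt i)]
    _ ≤ ∑ i, ENNReal.ofReal (pw M i) * (gR f L M 0 * ENNReal.ofReal C1) :=
        Finset.sum_le_sum fun i _ => mul_le_mul_right (H ι n f hf L M hP i) _
    _ = gR f L M 0 * ENNReal.ofReal (d * C1) := by
        rw [← Finset.sum_mul, ← ENNReal.ofReal_sum_of_nonneg fun i _ => pw_nonneg M i, sum_pw,
          ENNReal.ofReal_mul (by positivity)]
        ring
    _ ≤ _ := mul_le_mul_right (ENNReal.ofReal_le_ofReal (by linarith)) _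

end Pool.Agent.Y506.RG
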